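import Pool.Agent.P.MP_fdc1ac_lc.Basic
import Pool.Agent.P.MP_fdc1ac_lc.Ex2

-- part Pool.Agent.P.MP_fdc1ac_lc.Luzin
section

namespace Pool.Agent.P.MP_fdc1ac_lc

open Cardinal Filter Set

theorem transfinite_choice {I X : Type} [LinearOrder I] [WellFoundedLT I]
    (P : ∀ i : I, (Set.Iio i → X) → X → Prop) (h : ∀ i g, ∃ x, P i g x) :
    ∃ F : I → X, ∀ i, P i (fun j => F j) (F i) := by
  classical
  let F : I → X := (wellFounded_lt (α := I)).fix fun i rec =>
    Classical.choose (h i fun j => rec j j.2)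
  refine ⟨F, fun i => ?_⟩
  have : F i = Classical.choose (h i fun j => F j) := WellFounded.fix_eq _ _ _
  rw [this]
  exact Classical.choose_spec _

/-- literal sequences `f`, `g` clash at `k` -/
def Clash (f g : ℕ → ℕ × Bool) (k : ℕ) : Prop := (f k).1 = (g k).1 ∧ (f k).2 ≠ (g k).2

theorem luzin_step {J : Type} [Countable J] (g : J → ℕ → ℕ × Bool) (hb : ∀ j k, (g j k).1 ≤ k)
    (hd : ∀ i j, i ≠ j → ∀ᶠ k in atTop, (g i k).1 ≠ (g j k).1) :
    ∃ f : ℕ → ℕ × Bool, (∀ k, (f k).1 ≤ k) ∧ (∀ j, ∀ᶠ k in atTop, (f k).1 ≠ (g j k).1) ∧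
      ∀ n, {j | ∀ k, n ≤ k → ¬ Clash f (g j) k}.Finite := by
  classical
  obtain ⟨e, he⟩ := Countable.exists_injective_nat J
  have hfin : ∀ n, {j | e j < n}.Finite := fun n =>
    (Set.finite_Iio n).preimage he.injOn
  have h1 : ∀ j, ∃ m, ∀ i, e i < e j →
      (g j (Nat.pair (e j) m)).1 ≠ (g i (Nat.pair (e j) m)).1 := by
    intro j
    have : ∀ᶠ k in atTop, ∀ i ∈ {i | e i < e j}, (g j k).1 ≠ (g i k).1 :=
      (eventually_all_finite (hfin _)).2 fun i hi => hd j i (by
        rintro rfl; exact lt_irrefl (e j) hi)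
    obtain ⟨N, hN⟩ := eventually_atTop.1 this
    exact ⟨N, fun i hi => hN _ (Nat.right_le_pair _ _) i hi⟩
  choose m hm using h1
  let K : J → ℕ := fun j => Nat.pair (e j) (m j)
  have hK : Function.Injective K := fun i j h => he (Nat.pair_eq_pair.1 h).1
  have hKe : ∀ j, e j ≤ K j := fun j => Nat.left_le_pair _ _
  have h2 : ∀ k, ∃ v, v ≤ k ∧ ∀ j, e j < k → v ≠ (g j k).1 := by
    intro k
    have hc : ((hfin k).toFinset.image fun j => (g j k).1).card < (Finset.range (k + 1)).card := by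
      refine Finset.card_image_le.trans_lt ?_
      rw [Finset.card_range]
      refine Nat.lt_succ_of_le ?_
      conv_rhs => rw [← Finset.card_range k]
      refine Finset.card_le_card_of_injOn e (fun j hj => ?_) he.injOn
      simpa using hj
    obtain ⟨v, hv, hv'⟩ := Finset.exists_mem_notMem_of_card_lt_card hc
    refine ⟨v, Nat.le_of_lt_succ (Finset.mem_range.1 hv), fun j hj h => hv' ?_⟩
    exact Finset.mem_image.2 ⟨j, by simpa using hj, h.symm⟩
  choose v hv hv' using h2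
  let f : ℕ → ℕ × Bool := fun k =>
    if h : ∃ j, K j = k then ((g h.choose k).1, !(g h.choose k).2) else (v k, true)
  have hfK : ∀ j, f (K j) = ((g j (K j)).1, !(g j (K j)).2) := by
    intro j
    have h : ∃ i, K i = K j := ⟨j, rfl⟩
    have : h.choose = j := hK h.choose_spec
    simp only [f, dif_pos h, this]
  refine ⟨f, fun k => ?_, fun j => ?_, fun n => ?_⟩
  · by_cases h : ∃ j, K j = k
    · obtain ⟨j, rfl⟩ := h
      rw [hfK]; exact hb _ _
    · simp only [f, dif_neg h]; exact hv k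
  · have hf : (K '' {i | e i < e j + 1}).Finite := (hfin _).image K
    have : ∀ᶠ k in atTop, k ∉ K '' {i | e i < e j + 1} := by
      rw [← Nat.cofinite_eq_atTop]; exact hf.compl_mem_cofinite
    filter_upwards [this, eventually_gt_atTop (e j)] with k hk hk'
    by_cases h : ∃ j, K j = k
    · obtain ⟨i, rfl⟩ := h
      rw [hfK]
      refine hm i j ?_
      by_contra hc
      exact hk ⟨i, show e i < e j + 1 by omega, rfl⟩
    · simp only [f, dif_neg h]; exact hv' k j hk'
  · refine (hfin n).subset fun j hj => ?_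
    by_contra hc
    refine hj (K j) ((not_lt.1 hc).trans (hKe j)) ?_
    unfold Clash
    rw [hfK]
    simp

/-- the index type, a well order of type omega one -/
abbrev W1 : Type := (Ordinal.omega.{0} 1).ToType

theorem mk_W1 : #W1 = ℵ₁ := by simp

theorem countable_Iio_W1 (i : W1) : (Set.Iio i).Countable := by
  rw [← Cardinal.le_aleph0_iff_set_countable, ← Cardinal.lt_aleph_one_iff, ← mk_W1]
  exact Cardinal.mk_Iio_lt i (by simp)

theorem exists_luzin : ∃ F : W1 → ℕ → ℕ × Bool, (∀ i k, (F i k).1 ≤ k) ∧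
    (∀ i j, i ≠ j → ∀ᶠ k in atTop, (F i k).1 ≠ (F j k).1) ∧
    ∀ i n, {j | j < i ∧ ∀ k, n ≤ k → ¬ Clash (F i) (F j) k}.Finite := by
  obtain ⟨F, hF⟩ := transfinite_choice (I := W1) (X := ℕ → ℕ × Bool)
    (fun i g f => (∀ j k, (g j k).1 ≤ k) →
      (∀ a b, a ≠ b → ∀ᶠ k in atTop, (g a k).1 ≠ (g b k).1) →
      (∀ k, (f k).1 ≤ k) ∧ (∀ j, ∀ᶠ k in atTop, (f k).1 ≠ (g j k).1) ∧
        ∀ n, {j | ∀ k, n ≤ k → ¬ Clash f (g j) k}.Finite) (by
      intro i g
      have := (countable_Iio_W1 i).to_subtype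
      by_cases h : (∀ j k, (g j k).1 ≤ k) ∧
        (∀ a b, a ≠ b → ∀ᶠ k in atTop, (g a k).1 ≠ (g b k).1)
      · obtain ⟨f, hf⟩ := luzin_step g h.1 h.2
        exact ⟨f, fun _ _ => hf⟩
      · exact ⟨fun _ => (0, true), fun h1 h2 => (h ⟨h1, h2⟩).elim⟩)
  have key : ∀ i, (∀ k, (F i k).1 ≤ k) ∧
      (∀ j : Set.Iio i, ∀ᶠ k in atTop, (F i k).1 ≠ (F j k).1) ∧
        ∀ n, {j : Set.Iio i | ∀ k, n ≤ k → ¬ Clash (F i) (F j) k}.Finite := by
    intro i
    induction i using WellFoundedLT.induction with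
    | ind i ih =>
      refine hF i (fun j => (ih j j.2).1) fun a b hab => ?_
      rcases lt_or_gt_of_ne (Subtype.coe_ne_coe.2 hab) with h | h
      · exact ((ih b b.2).2.1 ⟨a, h⟩).mono fun k hk => hk.symm
      · exact (ih a a.2).2.1 ⟨b, h⟩
  refine ⟨F, fun i => (key i).1, fun i j hij => ?_, fun i n => ?_⟩
  · rcases lt_or_gt_of_ne hij with h | h
    · exact ((key j).2.1 ⟨i, h⟩).mono fun k hk => hk.symm
    · exact (key i).2.1 ⟨j, h⟩
  · refine (((key i).2.2 n).image Subtype.val).subset ?_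
    rintro j ⟨h1, h2⟩
    exact ⟨⟨j, h1⟩, h2, rfl⟩

/-- In an uncountable subset of `W1` some element has infinitely many predecessors in the set. -/
theorem exists_infinite_pred {S : Set W1} (hS : ¬ S.Countable) :
    ∃ i ∈ S, {j | j < i ∧ j ∈ S}.Infinite := by
  have hinf : S.Infinite := fun h => hS h.countable
  obtain ⟨T, hTS, hTc, hT⟩ := hinf.exists_subset_countable_infinite
  have hU : (⋃ t ∈ T, Set.Iic t).Countable := hTc.biUnion fun t _ => by
    rw [← Set.Iio_insert]; exact (countable_Iio_W1 t).insert t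
  obtain ⟨i, hi, hi'⟩ : ∃ i ∈ S, i ∉ ⋃ t ∈ T, Set.Iic t := by
    by_contra hc
    push Not at hc
    exact hS (hU.mono hc)
  refine ⟨i, hi, hT.mono fun t ht => ⟨?_, hTS ht⟩⟩
  by_contra hc
  exact hi' (Set.mem_biUnion ht (not_lt.1 hc))

end Pool.Agent.P.MP_fdc1ac_lc
end

-- part Pool.Agent.P.MP_fdc1ac_lc.Ex2Star
section

namespace Pool.Agent.P.MP_fdc1ac_lc.Ex2

open Cardinal Filter Set

theorem leStar_refl (A : E) : leStar A A := ⟨by simp, Eventually.of_forall fun _ => ext_refl _⟩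

theorem leStar_trans (A B C : E) (h1 : leStar A B) (h2 : leStar B C) : leStar A C :=
  ⟨diff_finite_trans h1.1 h2.1, by
    filter_upwards [h1.2, h2.2] with k a b using ext_trans a b⟩

theorem range_inf (A : E) : (range A.L).Infinite := infinite_range_of_injective A.mono.injective

theorem exists_enum (c : ℕ) (Y : Set ℕ) (hY : Y.Infinite) :
    ∃ φ : ℕ → ℕ, StrictMono φ ∧ c ≤ φ 0 ∧ range φ ⊆ Y := by
  obtain ⟨φ, h1, h2⟩ := extraction_of_frequently_atTop (Nat.frequently_atTop_iff_infinite.2 hY)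
  refine ⟨fun j => φ (c + j), fun _ _ h => h1 (by omega), le_trans (by omega) h1.le_apply, ?_⟩
  rintro _ ⟨j, rfl⟩; exact h2 _

theorem leStar_eq : leStar = sepLe le := by
  funext A B
  apply propext
  constructor
  · rintro ⟨h2, h1⟩ Z hZ
    obtain ⟨N, hN⟩ := eventually_atTop.1 h1
    have hinf : (range Z.L ∩ range B.L).Infinite := by
      refine ((range_inf Z).sdiff h2).mono ?_
      rintro y ⟨hy, hy'⟩
      refine ⟨hy, ?_⟩
      by_contra hc
      exact hy' ⟨hZ.1 hy, hc⟩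
    obtain ⟨φ, hφ, h0, hs⟩ := exists_enum (N + Z.L 0) _ hinf
    refine ⟨restrict Z φ hφ (by omega), restrict_le (hs.trans inter_subset_left),
      hs.trans inter_subset_right, fun k hk => ?_⟩
    have hk : φ 0 ≤ k := hk
    rw [restrict_q hk]
    exact ext_trans (hZ.2 k (by omega)) (hN k (by omega))
  · intro h
    constructor
    · by_contra hn
      obtain ⟨φ, hφ, h0, hs⟩ := exists_enum (A.L 0) _ hn
      obtain ⟨W, hW, hW'⟩ := h (restrict A φ hφ h0) (restrict_le (hs.trans sdiff_subset))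
      exact (hs (hW.1 ⟨0, rfl⟩)).2 (hW'.1 ⟨0, rfl⟩)
    · have : ∀ k, ∃ t, Valid k t ∧ Tot t ∧ ext t (A.q k) ∧
          (1 ≤ k → ¬ ext (A.q k) (B.q k) → ¬ ext t (B.q k)) := by
        intro k
        by_cases hk : 1 ≤ k
        · obtain ⟨t, a, b, c, d⟩ := exists_sep hk (A.valid k) (B.valid k)
          exact ⟨t, a, b, c, fun _ => d⟩
        · exact ⟨total (A.q k), total_valid (A.valid k), total_tot _, total_ext _,
            fun h => (hk h).elim⟩
      choose t hv ht he hs using this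
      obtain ⟨W, hW, hW'⟩ := h (mkTot A.L A.mono t hv ht) ⟨subset_rfl, fun k hk => by
        rw [mkTot_q (φ := A.L) hk]; exact he k⟩
      filter_upwards [eventually_ge_atTop 1, eventually_ge_atTop (W.L 0)] with k h1 h2
      by_contra hc
      apply hs k h1 hc
      have h3 := hW.2 k h2
      rw [mkTot_q (φ := A.L) ((L0_le hW.1).trans h2)] at h3
      rw [← ext_tot h3 (ht k)]
      exact hW'.2 k h2

theorem lit_or_tot (A : E) : (∀ᶠ k in atTop, Tot (A.q k)) ∨ ∀ᶠ k in atTop, ¬ Tot (A.q k) := by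
  by_cases h : ∃ k, A.L 0 ≤ k ∧ Tot (A.q k)
  · obtain ⟨k, hk, hk'⟩ := h
    left
    refine eventually_atTop.2 ⟨k, fun l hl => ?_⟩
    induction hl with
    | refl => exact hk'
    | step hl ih => exact A.up _ (hk.trans hl) ih
  · right
    exact eventually_atTop.2 ⟨A.L 0, fun l hl hc => h ⟨l, hl, hc⟩⟩

theorem exists_q_chain (T : Set E) (hT : ∀ X ∈ T, ∀ Y ∈ T, leStar X Y ∨ leStar Y X) :
    ∃ t : ℕ → D, (∀ k, Valid k (t k)) ∧ ∀ X ∈ T, ∀ᶠ k in atTop, ext (t k) (X.q k) := by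
  by_cases h : ∃ X ∈ T, ∀ᶠ k in atTop, Tot (X.q k)
  · obtain ⟨X, hX, hc⟩ := h
    refine ⟨X.q, X.valid, fun Y hY => ?_⟩
    rcases hT X hX Y hY with h | h
    · exact h.2
    · filter_upwards [h.2, hc] with k a b
      rw [ext_tot a b]; exact ext_refl _
  · rcases T.eq_empty_or_nonempty with rfl | ⟨X, hX⟩
    · exact ⟨fun _ => dflt, dflt_valid, by simp⟩
    · refine ⟨X.q, X.valid, fun Y hY => ?_⟩
      rcases hT X hX Y hY with h' | h'
      · exact h'.2
      · have := (lit_or_tot Y).resolve_left fun hc => h ⟨Y, hY, hc⟩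
        filter_upwards [h'.2, this] with k a b
        rw [ext_lit a b]; exact ext_refl _

theorem exists_lower (T : Set E) (Y : Set ℕ) (hY : Y.Infinite)
    (h1 : ∀ X ∈ T, (Y \ range X.L).Finite) (t : ℕ → D) (hv : ∀ k, Valid k (t k))
    (h2 : ∀ X ∈ T, ∀ᶠ k in atTop, ext (t k) (X.q k)) : HasPseudo leStar T := by
  obtain ⟨φ, hφ, -, hs⟩ := exists_enum 0 Y hY
  refine ⟨mkTot φ hφ (fun k => total (t k)) (fun k => total_valid (hv k)) fun k => total_tot _,
    fun X hX => ⟨(h1 X hX).subset (sdiff_subset_sdiff_left hs), ?_⟩⟩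
  filter_upwards [h2 X hX, eventually_ge_atTop (φ 0)] with k a b
  rw [mkTot_q b]
  exact ext_trans (total_ext _) a

def toInf (A : E) : InfSet := ⟨range A.L, range_inf A⟩

theorem hasPseudo_of_chain (T : Set E) (hT : ∀ X ∈ T, ∀ Y ∈ T, leStar X Y ∨ leStar Y X)
    (h : HasPseudo aLe (toInf '' T)) : HasPseudo leStar T := by
  obtain ⟨t, hv, ht⟩ := exists_q_chain T hT
  obtain ⟨Y, hY⟩ := h
  exact exists_lower T Y.1 Y.2 (fun X hX => hY _ ⟨X, hX, rfl⟩) t hv ht

theorem tower_lower {c : Cardinal} (hc : c ∈ tSet leStar) : towerNumber ≤ c := by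
  obtain ⟨T, h1, -, h3, rfl⟩ := hc
  obtain ⟨t, ht, ht'⟩ := exists_tower_of_chain aLe_refl aLe_trans (toInf '' T) (by
    rintro _ ⟨X, hX, rfl⟩ _ ⟨Y, hY, rfl⟩
    exact (h1 X hX Y hY).imp (fun h => h.1) (fun h => h.1))
    (fun h => h3 (hasPseudo_of_chain T h1 h))
  exact (towerNumber_le ht).trans (ht'.trans Cardinal.mk_image_le)

noncomputable def ofInf (A : InfSet) : E :=
  mkTot (Nat.nth (· ∈ A.1)) (Nat.nth_strictMono A.2) (fun _ => dflt) dflt_valid fun _ => dflt_tot

theorem range_ofInf (A : InfSet) : range (ofInf A).L = A.1 := Nat.range_nth_of_infinite A.2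

theorem ofInf_q (A : InfSet) (k : ℕ) : (ofInf A).q k = dflt := by simp [ofInf, mkTot]

theorem ofInf_inj : Function.Injective ofInf := fun A B h => by
  apply Subtype.ext
  rw [← range_ofInf, ← range_ofInf, h]

theorem leStar_ofInf {A B : InfSet} : leStar (ofInf A) (ofInf B) ↔ aLe A B := by
  unfold leStar aLe
  rw [range_ofInf, range_ofInf]
  exact ⟨fun h => h.1, fun h => ⟨h, Eventually.of_forall fun k => by
    rw [ofInf_q, ofInf_q]; exact ext_refl _⟩⟩

theorem tower_mem : towerNumber ∈ tSet leStar := by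
  obtain ⟨T, h1, h2, h3, h4⟩ := towerNumber_mem
  refine ⟨ofInf '' T, ?_, ?_, ?_, ?_⟩
  · rintro _ ⟨X, hX, rfl⟩ _ ⟨Y, hY, rfl⟩
    simpa only [leStar_ofInf] using h1 X hX Y hY
  · rintro _ ⟨X, hX, rfl⟩ _ ⟨Y, hY, rfl⟩ a b
    rw [h2 X hX Y hY (leStar_ofInf.1 a) (leStar_ofInf.1 b)]
  · rintro ⟨Y, hY⟩
    refine h3 ⟨toInf Y, fun X hX => ?_⟩
    have := (hY _ ⟨X, hX, rfl⟩).1
    rwa [range_ofInf] at this
  · rw [Cardinal.mk_image_eq ofInf_inj, h4]

theorem pseudo_of_seq (A Y : ℕ → E) (h : ∀ n, ∀ i ≤ n, leStar (Y n) (A i)) :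
    HasPseudo leStar (range A) := by
  classical
  obtain ⟨φ, hφ, hφ'⟩ := exists_pseudo_seq (fun i => range (A i).L) (fun n => range (Y n).L)
    (fun n => range_inf _) (fun n i hi => (h n i hi).1)
  let P : ℕ → ℕ → Prop := fun k n => ∀ i ≤ n, ext ((Y n).q k) ((A i).q k)
  refine exists_lower _ (range φ) (infinite_range_of_injective hφ.injective) ?_
    (fun k => (Y (Nat.findGreatest (P k) k)).q k) (fun k => (Y _).valid k) ?_
  · rintro _ ⟨i, rfl⟩; exact hφ' i
  · rintro _ ⟨i, rfl⟩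
    have : ∀ᶠ k in atTop, ∀ j ∈ Set.Iic i, ext ((Y i).q k) ((A j).q k) :=
      (eventually_all_finite (Set.finite_Iic i)).2 fun j hj => (h i j hj).2
    filter_upwards [this, eventually_ge_atTop i] with k a b
    have hP : P k i := fun j hj => a j hj
    exact Nat.findGreatest_spec (P := P k) b hP i (Nat.le_findGreatest b hP)

theorem sigmaClosed (X : ℕ → E) (h : ∀ n, leStar (X (n + 1)) (X n)) :
    ∃ Y, ∀ n, leStar Y (X n) := by
  have hle : ∀ n, ∀ i ≤ n, leStar (X n) (X i) := by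
    intro n i hi
    induction hi with
    | refl => exact leStar_refl _
    | step _ ih => exact leStar_trans _ _ _ (h _) ih
  obtain ⟨Y, hY⟩ := pseudo_of_seq X X hle
  exact ⟨Y, fun n => hY _ ⟨n, rfl⟩⟩

theorem p_lower {c : Cardinal} (hc : c ∈ pSet leStar) : ℵ₁ ≤ c := by
  obtain ⟨F, h1, h2, rfl⟩ := hc
  by_contra hlt
  have hc : F.Countable := by
    rw [← Cardinal.le_aleph0_iff_set_countable, ← Cardinal.lt_aleph_one_iff]
    exact not_le.1 hlt
  rcases F.eq_empty_or_nonempty with rfl | hne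
  · exact h2 (h1 _ subset_rfl finite_empty)
  obtain ⟨A, rfl⟩ := hc.exists_eq_range hne
  have : ∀ n, ∃ Y, ∀ i ≤ n, leStar Y (A i) := by
    intro n
    obtain ⟨Y, hY⟩ := h1 (A '' Set.Iic n) (image_subset_range _ _) ((Set.finite_Iic n).image _)
    exact ⟨Y, fun i hi => hY _ ⟨i, hi, rfl⟩⟩
  choose Y hY using this
  exact h2 (pseudo_of_seq A Y hY)

/-- the element given by a sequence of literals -/
def ofLit (f : ℕ → ℕ × Bool) (hf : ∀ k, (f k).1 ≤ k) : E where
  L := id
  q := fun k => .inl (f k)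
  mono := strictMono_id
  valid := hf
  junk := fun _ hk => absurd hk (Nat.not_lt_zero _)
  up := fun _ _ h => h

theorem ext_clash {t : D} {f g : ℕ → ℕ × Bool} {k : ℕ} (h1 : ext t (.inl (f k)))
    (h2 : ext t (.inl (g k))) : ¬ Clash f g k := by
  rintro ⟨a, b⟩
  rcases t with l | s
  · simp only [ext] at h1 h2
    exact b (by rw [← h1, ← h2])
  · simp only [ext] at h1 h2
    exact b (by rw [← h1, ← h2, a])

theorem p_mem : ℵ₁ ∈ pSet leStar := by
  classical
  obtain ⟨F, hb, hd, hl⟩ := exists_luzin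
  let X : W1 → E := fun i => ofLit (F i) (hb i)
  have hX : Function.Injective X := by
    intro i j h
    by_contra hij
    obtain ⟨k, hk⟩ := (hd i j hij).exists
    have := congrFun (congrArg E.q h) k
    simp only [X, ofLit, Sum.inl.injEq] at this
    exact hk (by rw [this])
  refine ⟨range X, ?_, ?_, by rw [Cardinal.mk_range_eq _ hX, mk_W1]⟩
  · intro G hG hfin
    have hJ : (X ⁻¹' G).Finite := hfin.preimage hX.injOn
    refine exists_lower G univ infinite_univ (fun Y hY => ?_)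
      (fun k => .inr ((hJ.toFinset.filter fun j => (F j k).2 = true).image fun j => (F j k).1))
      (fun k => ?_) fun Y hY => ?_
    · obtain ⟨i, rfl⟩ := hG hY
      simp [X, ofLit]
    · intro y hy
      obtain ⟨j, -, rfl⟩ := Finset.mem_image.1 hy
      exact Finset.mem_range.2 (Nat.lt_succ_of_le (hb j k))
    · obtain ⟨i, rfl⟩ := hG hY
      have : ∀ᶠ k in atTop, ∀ j ∈ X ⁻¹' G, j ≠ i → (F j k).1 ≠ (F i k).1 :=
        (eventually_all_finite hJ).2 fun j _ => by
          by_cases h : j = i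
          · exact Eventually.of_forall fun _ h' => (h' h).elim
          · exact (hd j i h).mono fun _ h' _ => h'
      filter_upwards [this] with k hk
      show decide (_ ∈ _) = (F i k).2
      cases hb' : (F i k).2
      · rw [decide_eq_false_iff_not]
        intro hmem
        obtain ⟨j, hj, e⟩ := Finset.mem_image.1 hmem
        obtain ⟨hj1, hj2⟩ := Finset.mem_filter.1 hj
        by_cases hji : j = i
        · subst hji; rw [hb'] at hj2; exact absurd hj2 (by simp)
        · exact hk j (by simpa using hj1) hji e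
      · rw [decide_eq_true_iff]
        exact Finset.mem_image.2 ⟨i, Finset.mem_filter.2 ⟨by simpa using hY, hb'⟩, rfl⟩
  · rintro ⟨Y, hY⟩
    have hU : (⋃ n : ℕ, {i : W1 | ∀ k, n ≤ k → ext (Y.q k) (.inl (F i k))}) = Set.univ := by
      refine eq_univ_of_forall fun i => ?_
      obtain ⟨n, hn⟩ := eventually_atTop.1 (hY _ ⟨i, rfl⟩).2
      exact mem_iUnion.2 ⟨n, hn⟩
    have : ∃ n : ℕ, ¬ {i : W1 | ∀ k, n ≤ k → ext (Y.q k) (.inl (F i k))}.Countable := by
      by_contra hc
      push Not at hc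
      have h1 := Set.countable_iUnion hc
      rw [hU, ← Cardinal.le_aleph0_iff_set_countable, Cardinal.mk_univ, mk_W1] at h1
      exact absurd h1 (not_le.2 Cardinal.aleph0_lt_aleph_one)
    obtain ⟨n, hn⟩ := this
    obtain ⟨i, hi, hinf⟩ := exists_infinite_pred hn
    refine hinf ((hl i n).subset ?_)
    rintro j ⟨h1, h2⟩
    exact ⟨h1, fun k hk => ext_clash (hi k hk) (h2 k hk)⟩

theorem main : ∃ (R AR : Type) (le leStar : R → R → Prop) (leFin : AR → AR → Prop)
    (r : ℕ → R → AR), IsTopRamseySpace le leFin r ∧ IsSigmaClosedCoarsening le leStar ∧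
      Countable AR ∧ leStar = sepLe le ∧
      IsLeast (pSet leStar) ℵ₁ ∧ IsLeast (tSet leStar) towerNumber :=
  ⟨E, AR, le, leStar, leFin, r, isTRS,
    isSigmaClosedCoarsening_of le_refl' le_trans' leStar_eq sigmaClosed, countable_AR, leStar_eq,
    ⟨p_mem, fun _ => p_lower⟩, ⟨tower_mem, fun _ => tower_lower⟩⟩

end Pool.Agent.P.MP_fdc1ac_lc.Ex2
end
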