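import Pool.Agent.P.MP_fdc1ac_lc.Basic
import Pool.Agent.P.MP_0d6be8_lc.NKW.TW
import Pool.Agent.P.MP_93aff1_lc.Defs
import Pool.Agent.P.MP_0d6be8_lc.NKW.Omega
import Pool.Agent.P.MP_93aff1_lc.MA
import Pool.Agent.P.MP_fdc1ac_lc.Md.Defs

-- part Pool.Agent.P.MP_fdc1ac_lc.Md.T1
section

set_option autoImplicit false
set_option linter.unusedSectionVars false
set_option synthInstance.maxSize 4000

/-! Decorations and the elements of the space, inside a model with standard numbers. -/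

noncomputable section

open Pool.Agent.P.MP_af1204_lc.Inn hiding range image univ Iio Iic
open Pool.Agent.P.MP_0d6be8_lc.NKW Filter

namespace Pool.Agent.P.MP_fdc1ac_lc.W

/-- decorations: a literal or a total assignment -/
abbrev D := (ℕ × Bool) ⊕ List Bool

def ext (a b : D) : Prop := a = b ∨ ∃ s l, a = .inr s ∧ b = .inl l ∧ s.getD l.1 false = l.2

def Valid (k : ℕ) (d : D) : Prop :=
  (∃ l, d = .inl l ∧ l.1 ≤ k) ∨ ∃ s, d = .inr s ∧ s.length ≤ k + 1

def Tot (d : D) : Prop := ∃ s, d = .inr s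

def dflt : D := .inr []

def total (d : D) : D :=
  Sum.elim (fun l => .inr ((List.range (l.1 + 1)).map fun _ => l.2)) (fun s => .inr s) d

theorem ext_refl (d : D) : ext d d := Or.inl rfl

theorem ext_trans {a b c : D} (h1 : ext a b) (h2 : ext b c) : ext a c := by
  rcases h1 with rfl | ⟨s, l, rfl, rfl, h⟩
  · exact h2
  · rcases h2 with rfl | ⟨_, _, e, -⟩
    · exact Or.inr ⟨s, l, rfl, rfl, h⟩
    · cases e

theorem ext_tot {a b : D} (h : ext a b) (hb : Tot b) : a = b := by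
  obtain ⟨s, rfl⟩ := hb
  rcases h with h | ⟨_, _, -, e, -⟩
  · exact h
  · cases e

theorem ext_lit {a b : D} (h : ext a b) (ha : ¬ Tot a) : a = b :=
  h.resolve_right fun ⟨s, _, e, _⟩ => ha ⟨s, e⟩

theorem total_tot (d : D) : Tot (total d) := by cases d <;> exact ⟨_, rfl⟩

theorem getD_map {X : Type} {n i : ℕ} (f : ℕ → X) (d : X) (h : i < n) :
    ((List.range n).map f).getD i d = f i := by
  simp [List.getD_eq_getElem?_getD, List.getElem?_range h]

theorem total_ext (d : D) : ext (total d) d := by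
  rcases d with l | s
  · exact Or.inr ⟨_, l, rfl, rfl, getD_map _ _ (Nat.lt_succ_self _)⟩
  · exact ext_refl _

theorem valid_inl {k : ℕ} {l : ℕ × Bool} : Valid k (.inl l) ↔ l.1 ≤ k := by simp [Valid]

theorem valid_inr {k : ℕ} {s : List Bool} : Valid k (.inr s) ↔ s.length ≤ k + 1 := by simp [Valid]

theorem total_valid {k : ℕ} {d : D} (h : Valid k d) : Valid k (total d) := by
  rcases d with l | s
  · exact valid_inr.2 (by simpa using valid_inl.1 h)
  · exact h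

theorem dflt_valid (k : ℕ) : Valid k dflt := valid_inr.2 (by simp)

theorem dflt_tot : Tot dflt := ⟨_, rfl⟩

theorem valid_mono {k m : ℕ} {d : D} (h : Valid k d) (e : k ≤ m) : Valid m d := by
  rcases d with l | s
  · exact valid_inl.2 ((valid_inl.1 h).trans e)
  · exact valid_inr.2 ((valid_inr.1 h).trans (by omega))

theorem valid_finite (k : ℕ) : {d : D | Valid k d}.Finite := by
  have h1 : (Sum.inl '' ((Set.Iic k) ×ˢ (Set.univ : Set Bool)) : Set D).Finite :=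
    ((Set.finite_Iic k).prod Set.finite_univ).image _
  have h2 : (Sum.inr '' {s : List Bool | s.length ≤ k + 1} : Set D).Finite :=
    (List.finite_length_le _ _).image _
  refine (h1.union h2).subset ?_
  rintro (l | s) h
  · exact Or.inl ⟨l, ⟨valid_inl.1 h, trivial⟩, rfl⟩
  · exact Or.inr ⟨s, valid_inr.1 h, rfl⟩

theorem ext_fun {k : ℕ} (f : ℕ → Bool) {l : ℕ × Bool} (h : l.1 ≤ k) :
    ext (.inr ((List.range (k + 1)).map f)) (.inl l) ↔ f l.1 = l.2 := by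
  rw [← getD_map f false (Nat.lt_succ_of_le h)]
  simp only [ext, reduceCtorEq, false_or, Sum.inr.injEq, Sum.inl.injEq]
  exact ⟨fun ⟨_, _, e, e', k⟩ => e ▸ e' ▸ k, fun k => ⟨_, _, rfl, rfl, k⟩⟩

theorem valid_fun (k : ℕ) (f : ℕ → Bool) : Valid k (.inr ((List.range (k + 1)).map f)) :=
  valid_inr.2 (by simp)

theorem exists_sep {k : ℕ} (hk : 1 ≤ k) {a b : D} (ha : Valid k a) (hb : Valid k b) :
    ∃ t, Valid k t ∧ Tot t ∧ ext t a ∧ (¬ ext a b → ¬ ext t b) := by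
  rcases a with ⟨i, e⟩ | s
  · have ha := valid_inl.1 ha
    have key : ∀ g : Bool, ext (.inr ((List.range (k + 1)).map fun x => if x = i then e else g))
        (.inl (i, e)) := fun g => (ext_fun _ ha).2 (by simp)
    rcases b with ⟨j, f⟩ | s
    · refine ⟨_, valid_fun _ _, ⟨_, rfl⟩, key (!f), fun h h' => ?_⟩
      rw [ext_fun _ (valid_inl.1 hb)] at h'
      by_cases hij : j = i
      · subst hij
        simp only [if_true] at h'
        exact h (Or.inl (by rw [h']))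
      · simp [hij] at h'
    · obtain ⟨j, hj, hji⟩ : ∃ j, j ≤ k ∧ j ≠ i := by
        by_cases h : i = 0
        · exact ⟨1, hk, by omega⟩
        · exact ⟨0, by omega, by omega⟩
      refine ⟨_, valid_fun _ _, ⟨_, rfl⟩, key (!s.getD j false), fun _ h' => ?_⟩
      have := congrArg (fun s => s.getD j false) (Sum.inr.inj (ext_tot h' ⟨_, rfl⟩))
      simp only [getD_map _ _ (Nat.lt_succ_of_le hj), if_neg hji] at this
      simp at this
  · exact ⟨.inr s, ha, ⟨_, rfl⟩, ext_refl _, id⟩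

theorem map_range_eq {X : Type} {n m : ℕ} {f g : ℕ → X} :
    (List.range n).map f = (List.range m).map g ↔ n = m ∧ ∀ i < n, f i = g i := by
  constructor
  · intro h
    obtain rfl : n = m := by simpa using congrArg List.length h
    exact ⟨rfl, fun i hi => List.map_inj_left.1 h i (List.mem_range.2 hi)⟩
  · rintro ⟨rfl, h⟩
    exact List.map_inj_left.2 fun i hi => h i (List.mem_range.1 hi)

theorem finite_lists {X : Type} {s : Set X} (h : s.Finite) (N : ℕ) :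
    {l : List X | l.length ≤ N ∧ ∀ x ∈ l, x ∈ s}.Finite := by
  have := h.to_subtype
  refine ((List.finite_length_le s N).image (List.map Subtype.val)).subset fun l hl =>
    ⟨l.attachWith _ hl.2, by simpa using hl.1, by simp⟩

variable [Md] [Std]

section dd
variable {Γ : Type} [MC Γ]

instance (a b : Γ → D) [DD a] [DD b] : DP fun g => ext (a g) (b g) := by
  unfold ext; infer_instance

instance (k : Γ → ℕ) (a : Γ → D) [DD k] [DD a] : DP fun g => Valid (k g) (a g) := by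
  unfold Valid; infer_instance

instance (a : Γ → D) [DD a] : DP fun g => Tot (a g) := by unfold Tot; infer_instance

instance (a : Γ → D) [DD a] : DD fun g => total (a g) := by unfold total; infer_instance

instance dp_range (L : Γ → Fn ℕ ℕ) (m : Γ → ℕ) [DD L] [DD m] :
    DP fun g => m g ∈ Set.range (L g) :=
  (inferInstance : DP fun g => ∃ i, L g i = m g)

instance dd_cat (x φ : Γ → Fn ℕ ℕ) (n i : Γ → ℕ) [DD x] [DD φ] [DD n] [DD i] :
    DD fun g => cat (x g) (n g) (φ g) (i g) := by unfold cat; infer_instance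

end dd

/-- increasing choice -/
theorem extract (P : ℕ → ℕ → Prop) [DP2 P] (h : ∀ n, ∃ᶠ k in atTop, P n k) :
    ∃ φ : Fn ℕ ℕ, StrictMono φ ∧ ∀ n, P n (φ n) := by
  obtain ⟨x0, h0⟩ := (h 0).exists
  obtain ⟨f, -, hf⟩ := exists_seq (fun _ x y => x < y) P x0 h0 fun n x _ =>
    ((h (n + 1)).and_eventually (eventually_gt_atTop x)).exists
  exact ⟨f, strictMono_nat_of_lt_succ fun n => (hf n).2, fun n => (hf n).1⟩

theorem pigeon (P : ℕ → Prop) [DP P] :
    ∃ φ : Fn ℕ ℕ, StrictMono φ ∧ ((∀ n, P (φ n)) ∨ ∀ n, ¬ P (φ n)) := by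
  by_cases h : ∃ᶠ n in atTop, P n
  · obtain ⟨φ, h1, h2⟩ := extract (fun _ k => P k) fun _ => h
    exact ⟨φ, h1, Or.inl h2⟩
  · obtain ⟨φ, h1, h2⟩ := extract (fun _ k => ¬ P k) fun _ => (not_frequently.1 h).frequently
    exact ⟨φ, h1, Or.inr h2⟩

theorem exists_enum (c : ℕ) (Y : ℕ → Prop) [DP Y] (hY : {m | Y m}.Infinite) :
    ∃ φ : Fn ℕ ℕ, StrictMono φ ∧ c ≤ φ 0 ∧ ∀ i, Y (φ i) := by
  obtain ⟨φ, h1, h2⟩ := extract (fun _ k => Y k ∧ c ≤ k) fun _ =>
    (Nat.frequently_atTop_iff_infinite.2 hY).and_eventually (eventually_ge_atTop c)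
  exact ⟨φ, h1, (h2 0).2, fun i => (h2 i).1⟩

/-- the elements of the space -/
@[ext] structure E where
  /-- the levels -/
  L : Fn ℕ ℕ
  /-- the decorations -/
  q : Fn ℕ D
  mono : StrictMono L
  valid : ∀ k, Valid k (q k)
  junk : ∀ k < L 0, q k = dflt
  up : ∀ k, L 0 ≤ k → Tot (q k) → Tot (q (k + 1))

instance : MT E :=
  MT.ofInj (fun A : E => (A.L, A.q)) (fun _ _ h => E.ext (congrArg Prod.fst h) (congrArg Prod.snd h))
    (k := (inferInstance : DP fun p : Fn ℕ ℕ × Fn ℕ D => StrictMono p.1 ∧ (∀ k, Valid k (p.2 k)) ∧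
      (∀ k < p.1 0, p.2 k = dflt) ∧ ∀ k, p.1 0 ≤ k → Tot (p.2 k) → Tot (p.2 (k + 1))).congr
      fun p => ⟨fun ⟨A, e⟩ => e ▸ ⟨A.mono, A.valid, A.junk, A.up⟩,
        fun h => ⟨⟨p.1, p.2, h.1, h.2.1, h.2.2.1, h.2.2.2⟩, rfl⟩⟩)

section dd
variable {Γ : Type} [MC Γ]

theorem dd_E (A : Γ → E) [h : DD A] : DD fun g => ((A g).L, (A g).q) := h.of_enc fun _ => rfl

instance (A : Γ → E) [DD A] : DD fun g => (A g).L :=
  have := dd_E A
  dd_fst fun g => ((A g).L, (A g).q)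

instance (A : Γ → E) [DD A] : DD fun g => (A g).q :=
  have := dd_E A
  dd_snd fun g => ((A g).L, (A g).q)

theorem dd_mk (A : Γ → E) [DD fun g => (A g).L] [DD fun g => (A g).q] : DD A :=
  (inferInstance : DD fun g => ((A g).L, (A g).q)).of_enc fun _ => rfl

end dd

end Pool.Agent.P.MP_fdc1ac_lc.W
end
end

-- part Pool.Agent.P.MP_fdc1ac_lc.Md.T2
section

set_option autoImplicit false
set_option linter.unusedSectionVars false
set_option synthInstance.maxSize 4000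

/-! The space satisfies the axioms, with all witnesses inside the model. -/

noncomputable section

open Pool.Agent.P.MP_af1204_lc.Inn hiding range image univ Iio Iic
open Pool.Agent.P.MP_0d6be8_lc.NKW Filter
open Set (range)

namespace Pool.Agent.P.MP_fdc1ac_lc.W

variable [Md] [Std]

def le (A B : E) : Prop := range A.L ⊆ range B.L ∧ ∀ k, A.L 0 ≤ k → ext (A.q k) (B.q k)

def leStar (A B : E) : Prop :=
  (range A.L \ range B.L).Finite ∧ ∀ᶠ k in atTop, ext (A.q k) (B.q k)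

def cut (A : E) : ℕ → ℕ
  | 0 => 0
  | n + 1 => A.L n

def r0 (n : ℕ) (A : E) : List ℕ × List D :=
  ((List.range n).map A.L, (List.range (cut A n)).map A.q)

section dd
variable {Γ : Type} [MC Γ] (A B : Γ → E) [DD A] [DD B] (n : Γ → ℕ) [DD n]

instance : DP fun g => le (A g) (B g) :=
  (inferInstance : DP fun g => (∀ m, m ∈ range (A g).L → m ∈ range (B g).L) ∧
    ∀ k, (A g).L 0 ≤ k → ext ((A g).q k) ((B g).q k))

theorem fin_iff {s : Set ℕ} : s.Finite ↔ ∀ᶠ m in atTop, m ∉ s := by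
  rw [← Nat.cofinite_eq_atTop, eventually_cofinite]; simp

instance : DP fun g => leStar (A g) (B g) :=
  (inferInstance : DP fun g => (∀ᶠ m in atTop, ¬ (m ∈ range (A g).L ∧ ¬ m ∈ range (B g).L)) ∧
    ∀ᶠ k in atTop, ext ((A g).q k) ((B g).q k)).congr fun _ => and_congr_left' fin_iff

instance : DD fun g => cut (A g) (n g) :=
  (inferInstance : DD fun g => if n g = 0 then 0 else (A g).L (n g - 1)).congr fun g => by
    cases n g <;> simp [cut]

instance : DD fun g => r0 (n g) (A g) := by unfold r0; infer_instance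

end dd

abbrev AR := {a : List ℕ × List D // ∃ n A, r0 n A = a}

def r (n : ℕ) (A : E) : AR := ⟨r0 n A, n, A, rfl⟩

def leFin (a b : AR) : Prop :=
  (∀ x ∈ a.1.1, x ∈ b.1.1) ∧ ∀ k, (∃ i ∈ a.1.1, i ≤ k) → (∃ j ∈ a.1.1, k < j) →
    ext (a.1.2.getD k dflt) (b.1.2.getD k dflt)

instance {Γ : Type} [MC Γ] (A : Γ → E) [DD A] (n : Γ → ℕ) [DD n] : DD fun g => r (n g) (A g) :=
  (inferInstance : DD fun g => r0 (n g) (A g)).of_enc fun _ => rfl

instance {Γ : Type} [MC Γ] (a b : Γ → AR) [DD a] [DD b] : DP fun g => leFin (a g) (b g) := by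
  unfold leFin; infer_instance

theorem r_surj (a : AR) : ∃ n A, r n A = a := by
  obtain ⟨a, n, A, rfl⟩ := a
  exact ⟨n, A, rfl⟩

theorem cut_congr {n : ℕ} {A B : E} (h : ∀ i < n, A.L i = B.L i) : cut A n = cut B n := by
  cases n with
  | zero => rfl
  | succ n => exact h n (by omega)

theorem cut_mono (A : E) {n m : ℕ} (h : n ≤ m) : cut A n ≤ cut A m := by
  cases n with
  | zero => exact Nat.zero_le _
  | succ n =>
    cases m with
    | zero => omega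
    | succ m => exact A.mono.monotone (by omega)

theorem r_eq_iff {n m : ℕ} {A B : E} :
    r n A = r m B ↔ n = m ∧ (∀ i < n, A.L i = B.L i) ∧ ∀ k < cut A n, A.q k = B.q k := by
  rw [r, r, Subtype.mk.injEq, r0, r0, Prod.mk.injEq, map_range_eq, map_range_eq]
  exact ⟨fun h => ⟨h.1.1, h.1.2, h.2.2⟩, fun ⟨h1, h2, h3⟩ => ⟨⟨h1, h2⟩, h1 ▸ cut_congr h2, h3⟩⟩

theorem lt_cut_of {A : E} {n j k : ℕ} (hj : j < n) (h : k < A.L j) : k < cut A n :=
  h.trans_le (cut_mono A (show j + 1 ≤ n from hj))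

theorem mem_r {n x : ℕ} {A : E} : x ∈ (r n A).1.1 ↔ ∃ i < n, A.L i = x := by
  simp [r, r0]

theorem getD_r {n k : ℕ} {A : E} (h : k < cut A n) : (r n A).1.2.getD k dflt = A.q k :=
  getD_map _ _ h

theorem leFin_iff {n m : ℕ} {A B : E} :
    leFin (r n A) (r m B) ↔ (∀ i < n, ∃ j < m, A.L i = B.L j) ∧
      ∀ k, A.L 0 ≤ k → k < cut A n → ext (A.q k) (B.q k) := by
  have hsub : (∀ x ∈ (r n A).1.1, x ∈ (r m B).1.1) ↔ ∀ i < n, ∃ j < m, A.L i = B.L j := by
    simp only [mem_r]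
    exact ⟨fun h i hi => (h _ ⟨i, hi, rfl⟩).imp fun _ k => ⟨k.1, k.2.symm⟩,
      fun h _ ⟨i, hi, e⟩ => (h i hi).imp fun _ k => ⟨k.1, k.2.symm.trans e⟩⟩
  rw [leFin, hsub]
  refine and_congr_right fun h => ?_
  constructor
  · intro h2 k h3 h4
    cases n with
    | zero => exact absurd h4 (Nat.not_lt_zero _)
    | succ n =>
      have := h2 k ⟨_, mem_r.2 ⟨0, Nat.succ_pos n, rfl⟩, h3⟩
        ⟨_, mem_r.2 ⟨n, Nat.lt_succ_self n, rfl⟩, h4⟩
      obtain ⟨j, hj, e⟩ := h n (by omega)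
      rwa [getD_r h4, getD_r (lt_cut_of hj (e ▸ h4))] at this
  · rintro h2 k ⟨_, hi, hi'⟩ ⟨_, hj, hj'⟩
    obtain ⟨i, -, rfl⟩ := mem_r.1 hi
    obtain ⟨j, hj0, rfl⟩ := mem_r.1 hj
    obtain ⟨l, hl, e⟩ := h j hj0
    rw [getD_r (lt_cut_of hj0 hj'), getD_r (lt_cut_of hl (e ▸ hj'))]
    exact h2 k ((A.mono.monotone (Nat.zero_le _)).trans hi') (lt_cut_of hj0 hj')

theorem le_refl' (A : E) : le A A := ⟨subset_rfl, fun _ _ => ext_refl _⟩

theorem L0_le {A B : E} (h : range A.L ⊆ range B.L) : B.L 0 ≤ A.L 0 := by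
  obtain ⟨j, hj⟩ := h ⟨0, rfl⟩
  rw [← hj]; exact B.mono.monotone (Nat.zero_le _)

theorem le_trans' (A B C : E) (h1 : le A B) (h2 : le B C) : le A C :=
  ⟨h1.1.trans h2.1, fun k hk => ext_trans (h1.2 k hk) (h2.2 k ((L0_le h1.1).trans hk))⟩

theorem mem_nbhd {k : ℕ} {C A X : E} :
    X ∈ nbhd le r (r k C) A ↔ le X A ∧ r k X = r k C := by
  constructor
  · rintro ⟨h, n, hn⟩
    obtain rfl := (r_eq_iff.1 hn).1
    exact ⟨h, hn⟩
  · rintro ⟨h, hn⟩
    exact ⟨h, k, hn⟩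

theorem r_zero (A B : E) : r 0 A = r 0 B := by simp [r_eq_iff, cut]

theorem depth_zero {n : ℕ} {C B : E} (h : IsLeast {m | leFin (r 0 C) (r m B)} n) : n = 0 := by
  have : n ≤ 0 := h.2 (show leFin (r 0 C) (r 0 B) by simp [leFin_iff, cut])
  omega

theorem depth_succ {k n : ℕ} {C B : E} (h : IsLeast {m | leFin (r (k + 1) C) (r m B)} n) :
    ∃ n', n = n' + 1 ∧ B.L n' = C.L k ∧ (∀ i ≤ k, ∃ j ≤ n', C.L i = B.L j) ∧
      ∀ l, C.L 0 ≤ l → l < C.L k → ext (C.q l) (B.q l) := by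
  obtain ⟨h2, h1⟩ := leFin_iff.1 h.1
  obtain ⟨j, hj, hj'⟩ := h2 k (by omega)
  have key : ∀ i ≤ k, ∃ j' ≤ j, C.L i = B.L j' := by
    intro i hi
    obtain ⟨j', -, h'⟩ := h2 i (by omega)
    refine ⟨j', ?_, h'⟩
    have := C.mono.monotone hi
    rw [h', hj'] at this
    exact B.mono.le_iff_le.1 this
  have : n ≤ j + 1 := h.2 (show leFin (r (k + 1) C) (r (j + 1) B) from
    leFin_iff.2 ⟨fun i hi => by
      obtain ⟨j', h3, h4⟩ := key i (by omega)
      exact ⟨j', by omega, h4⟩, h1⟩)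
  exact ⟨j, by omega, hj'.symm, key, h1⟩

/-- keep `r (n+1) B`, continue with levels `φ` and the totalization of `C`. -/
def splice (B : E) (n : ℕ) (φ : Fn ℕ ℕ) (hφ : StrictMono φ) (h : B.L n < φ 0) (C : E) : E where
  L := lm fun i => cat B.L (n + 1) φ i
  q := lm fun k => if k < B.L n then B.q k else total (C.q k)
  mono := cat_strictMono B.mono hφ fun i hi => (B.mono.monotone (by omega)).trans_lt h
  valid := fun k => by
    rw [lm_apply]
    split_ifs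
    · exact B.valid k
    · exact total_valid (C.valid k)
  junk := fun k hk => by
    rw [lm_apply, cat_lt (by omega)] at hk
    rw [lm_apply, if_pos (hk.trans_le (B.mono.monotone (Nat.zero_le _)))]
    exact B.junk k hk
  up := fun k hk => by
    rw [lm_apply, cat_lt (by omega)] at hk
    simp only [lm_apply]
    split_ifs with h1 h2 h2
    · exact B.up k hk
    · exact fun _ => total_tot _
    · omega
    · exact fun _ => total_tot _

theorem splice_L (B : E) (n : ℕ) (φ : Fn ℕ ℕ) (hφ : StrictMono φ) (h : B.L n < φ 0) (C : E) :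
    ((splice B n φ hφ h C).L : ℕ → ℕ) = cat B.L (n + 1) φ := rfl

theorem splice_q_lt {B : E} {n : ℕ} {φ : Fn ℕ ℕ} {hφ : StrictMono φ} {h : B.L n < φ 0} {C : E}
    {k : ℕ} (hk : k < B.L n) : (splice B n φ hφ h C).q k = B.q k := if_pos hk

theorem splice_q_ge {B : E} {n : ℕ} {φ : Fn ℕ ℕ} {hφ : StrictMono φ} {h : B.L n < φ 0} {C : E}
    {k : ℕ} (hk : ¬ k < B.L n) : (splice B n φ hφ h C).q k = total (C.q k) := if_neg hk

theorem r_splice (B : E) (n : ℕ) (φ : Fn ℕ ℕ) (hφ : StrictMono φ) (h : B.L n < φ 0) (C : E) :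
    r (n + 1) (splice B n φ hφ h C) = r (n + 1) B :=
  r_eq_iff.2 ⟨rfl, fun _ hi => cat_lt hi, fun k hk => splice_q_lt (by
    have : cut (splice B n φ hφ h C) (n + 1) = B.L n := cat_lt (Nat.lt_succ_self n)
    rwa [this] at hk)⟩

/-- the levels from `n` on -/
def tl (A : E) (n : ℕ) : Fn ℕ ℕ := lm fun j => A.L (n + j)

theorem tail_mono (A : E) (n : ℕ) : StrictMono (tl A n) :=
  fun _ _ h => A.mono (by omega)

/-- restrict `A` to a subsequence of its levels -/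
def restrict (A : E) (φ : Fn ℕ ℕ) (hφ : StrictMono φ) (h : A.L 0 ≤ φ 0) : E where
  L := φ
  q := lm fun k => if k < φ 0 then dflt else A.q k
  mono := hφ
  valid := fun k => by
    rw [lm_apply]
    split_ifs
    · exact dflt_valid k
    · exact A.valid k
  junk := fun k hk => if_pos hk
  up := fun k hk => by
    rw [lm_apply, lm_apply, if_neg (by omega), if_neg (by omega)]
    exact A.up k (h.trans hk)

theorem restrict_q {A : E} {φ : Fn ℕ ℕ} {hφ : StrictMono φ} {h : A.L 0 ≤ φ 0} {k : ℕ}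
    (hk : φ 0 ≤ k) : (restrict A φ hφ h).q k = A.q k := if_neg (by omega)

theorem restrict_le {A : E} {φ : Fn ℕ ℕ} {hφ : StrictMono φ} {h : A.L 0 ≤ φ 0}
    (hs : range φ ⊆ range A.L) : le (restrict A φ hφ h) A :=
  ⟨hs, fun k hk => by rw [restrict_q (φ := φ) hk]; exact ext_refl _⟩

section dd
variable {Γ : Type} [MC Γ] (B C : E) (n : ℕ) (φ : Γ → Fn ℕ ℕ) [DD φ]

instance (m : Γ → ℕ) [DD m] : DD fun g => tl B (m g) := by unfold tl; infer_instance

instance (hφ : ∀ g, StrictMono (φ g)) (h : ∀ g, B.L n < φ g 0) :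
    DD fun g => splice B n (φ g) (hφ g) (h g) C :=
  @dd_mk _ _ _ _ _ (by unfold splice; infer_instance) (by unfold splice; infer_instance)

instance (hφ : ∀ g, StrictMono (φ g)) (h : ∀ g, B.L 0 ≤ φ g 0) :
    DD fun g => restrict B (φ g) (hφ g) (h g) :=
  @dd_mk _ _ _ _ _ (by unfold restrict; infer_instance) (by unfold restrict; infer_instance)

end dd

theorem A3_1 (a : AR) (B : E) (n : ℕ) (h : IsLeast {m | leFin a (r m B)} n) :
    ∀ A ∈ nbhd le r (r n B) B, (nbhd le r a A).Nonempty := by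
  obtain ⟨k, C, rfl⟩ := r_surj a
  intro A hA
  cases k with
  | zero => exact ⟨A, mem_nbhd.2 ⟨le_refl' A, r_zero _ _⟩⟩
  | succ k =>
    obtain ⟨n, rfl, h1, h3, h2⟩ := depth_succ h
    obtain ⟨-, hA⟩ := mem_nbhd.1 hA
    obtain ⟨-, hx, hq⟩ := r_eq_iff.1 hA
    have hn := hx n (by omega)
    have hlt : C.L k < tl A (n + 1) 0 := by
      rw [← h1, ← hn]; exact A.mono (by omega)
    refine ⟨splice C k (tl A (n + 1)) (tail_mono A (n + 1)) hlt A,
      mem_nbhd.2 ⟨⟨?_, ?_⟩, r_splice _ _ _ _ _ _⟩⟩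
    · rintro _ ⟨i, rfl⟩
      rcases cat_cases C.L (fun j => A.L (n + 1 + j)) (k + 1) i with ⟨hi, e⟩ | ⟨j, -, e⟩
      · obtain ⟨j, hj, hj'⟩ := h3 i (by omega)
        exact ⟨j, by rw [hx j (by omega), ← hj']; exact e.symm⟩
      · exact ⟨_, e.symm⟩
    · intro l hl
      rw [splice_L, cat_lt (by omega)] at hl
      by_cases hlk : l < C.L k
      · rw [splice_q_lt hlk, hq l (show l < A.L n by omega)]
        exact h2 l hl hlk
      · rw [splice_q_ge hlk]; exact total_ext _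

theorem A3_2 (a : AR) (B : E) (n : ℕ) (h : IsLeast {m | leFin a (r m B)} n) :
    ∀ A, le A B → (nbhd le r a A).Nonempty →
      ∃ A' ∈ nbhd le r (r n B) B, (nbhd le r a A').Nonempty ∧ nbhd le r a A' ⊆ nbhd le r a A := by
  intro A hAB ⟨C, hCA, k, hk⟩
  subst hk
  cases k with
  | zero =>
    obtain rfl := depth_zero h
    exact ⟨A, mem_nbhd.2 ⟨hAB, r_zero _ _⟩, ⟨C, hCA, 0, rfl⟩, subset_rfl⟩
  | succ k =>
    obtain ⟨n, rfl, h1, h3, h2⟩ := depth_succ h
    have hlt : B.L n < tl C (k + 1) 0 := by rw [h1]; exact C.mono (by omega)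
    have hCB := le_trans' _ _ _ hCA hAB
    have h0k : C.L 0 ≤ C.L k := C.mono.monotone (Nat.zero_le _)
    have hmem : splice B n (tl C (k + 1)) (tail_mono C (k + 1)) hlt C ∈ nbhd le r (r (n + 1) B) B := by
      refine mem_nbhd.2 ⟨⟨?_, ?_⟩, r_splice _ _ _ _ _ _⟩
      · rintro _ ⟨i, rfl⟩
        rcases cat_cases B.L (fun j => C.L (k + 1 + j)) (n + 1) i with ⟨hi, e⟩ | ⟨j, -, e⟩
        · exact ⟨i, e.symm⟩
        · obtain ⟨l, hl⟩ := hCB.1 ⟨k + 1 + j, rfl⟩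
          exact ⟨l, hl.trans e.symm⟩
      · intro l _
        by_cases hl : l < B.L n
        · rw [splice_q_lt hl]; exact ext_refl _
        · rw [splice_q_ge hl]
          exact ext_trans (total_ext _) (hCB.2 l (by omega))
    refine ⟨_, hmem, A3_1 _ B _ h _ hmem, ?_⟩
    intro X hX
    obtain ⟨hX1, hX2⟩ := mem_nbhd.1 hX
    obtain ⟨-, hx, hq⟩ := r_eq_iff.1 hX2
    have e4 := hx k (by omega)
    have e0 := hx 0 (by omega)
    refine mem_nbhd.2 ⟨le_trans' _ _ _ ⟨?_, ?_⟩ hCA, hX2⟩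
    · rintro _ ⟨i, rfl⟩
      by_cases hi : i < k + 1
      · exact ⟨i, (hx i hi).symm⟩
      · obtain ⟨j, hj⟩ := hX1.1 ⟨i, rfl⟩
        rcases cat_cases B.L (fun j => C.L (k + 1 + j)) (n + 1) j with ⟨hj', e⟩ | ⟨j', -, e⟩
        · exfalso
          have e1 : X.L i = B.L j := hj.symm.trans e
          have e2 : X.L k < X.L i := X.mono (by omega)
          have e3 : B.L j ≤ B.L n := B.mono.monotone (by omega)
          omega
        · exact ⟨_, e.symm.trans hj⟩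
    · intro l hl
      by_cases hlk : l < X.L k
      · rw [hq l hlk]; exact ext_refl _
      · have := hX1.2 l hl
        rw [splice_q_ge (by omega)] at this
        exact ext_trans this (total_ext _)

theorem A4 (a : AR) (B : E) (n : ℕ) (h : IsLeast {m | leFin a (r m B)} n) :
    ∀ k, a ∈ range (r k) → ∀ O : PS AR, ∃ A ∈ nbhd le r (r n B) B,
      (∀ X ∈ nbhd le r a A, r (k + 1) X ∈ O) ∨ ∀ X ∈ nbhd le r a A, r (k + 1) X ∉ O := by
  rintro k ⟨C, rfl⟩ O
  cases k with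
  | zero =>
    obtain rfl := depth_zero h
    have h0 : ∀ m, B.L 0 ≤ tl B m 0 := fun m => B.mono.monotone (Nat.zero_le _)
    let T : ℕ → E := fun m => restrict B (tl B m) (tail_mono B m) (h0 m)
    obtain ⟨φ, hφ, hP⟩ := pigeon fun m => r 1 (T m) ∈ O
    let A : E := restrict B (lm fun j => B.L (φ j)) (B.mono.comp hφ)
      (B.mono.monotone (Nat.zero_le _))
    have key : ∀ X ∈ nbhd le r (r 0 C) A, ∃ j, r 1 X = r 1 (T (φ j)) := by
      intro X hX
      obtain ⟨⟨h2, -⟩, -⟩ := mem_nbhd.1 hX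
      obtain ⟨j, hj⟩ := h2 ⟨0, rfl⟩
      refine ⟨j, r_eq_iff.2 ⟨rfl, fun i hi => ?_, fun l hl => ?_⟩⟩
      · obtain rfl : i = 0 := by omega
        exact hj.symm
      · rw [X.junk l hl, (T (φ j)).junk l (lt_of_lt_of_eq hl hj.symm)]
    refine ⟨A, mem_nbhd.2 ⟨restrict_le ?_, r_zero _ _⟩, ?_⟩
    · rintro _ ⟨j, rfl⟩; exact ⟨_, rfl⟩
    · rcases hP with hP | hP
      · left
        intro X hX
        obtain ⟨j, hj⟩ := key X hX
        rw [zero_add, hj]; exact hP j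
      · right
        intro X hX
        obtain ⟨j, hj⟩ := key X hX
        rw [zero_add, hj]; exact hP j
  | succ k =>
    obtain ⟨n, rfl, h1, h3, h2⟩ := depth_succ h
    have hlt : ∀ m, C.L k < tl B (n + 1 + m) 0 := fun m => by
      rw [← h1]; exact B.mono (by omega)
    let T : ℕ → E := fun m => splice C k (tl B (n + 1 + m)) (tail_mono B (n + 1 + m)) (hlt m) B
    obtain ⟨φ, hφ, hP⟩ := pigeon fun m => r (k + 2) (T m) ∈ O
    have hψ : StrictMono (lm fun j => B.L (n + 1 + φ j)) := fun _ _ h =>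
      B.mono (by have := hφ h; omega)
    have h0 : B.L n < (lm fun j => B.L (n + 1 + φ j)) 0 := B.mono (by omega)
    let A : E := splice B n _ hψ h0 B
    have key : ∀ X ∈ nbhd le r (r (k + 1) C) A, ∃ j, r (k + 2) X = r (k + 2) (T (φ j)) := by
      intro X hX
      obtain ⟨⟨hX1, hX3⟩, hX2⟩ := mem_nbhd.1 hX
      obtain ⟨-, hx, hq⟩ := r_eq_iff.1 hX2
      obtain ⟨j, hj⟩ := hX1 ⟨k + 1, rfl⟩
      have e4 := hx k (by omega)
      rcases cat_cases B.L (fun j => B.L (n + 1 + φ j)) (n + 1) j with ⟨hj', e⟩ | ⟨j', -, e⟩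
      · exfalso
        have e1 : X.L (k + 1) = B.L j := hj.symm.trans e
        have e2 : X.L k < X.L (k + 1) := X.mono (by omega)
        have e3 : B.L j ≤ B.L n := B.mono.monotone (by omega)
        omega
      · refine ⟨j', r_eq_iff.2 ⟨rfl, fun i hi => ?_, fun l _ => ?_⟩⟩
        · by_cases hi' : i < k + 1
          · rw [hx i hi']
            exact (cat_lt (x := C.L) (φ := fun j => B.L (n + 1 + φ j' + j)) hi').symm
          · obtain rfl : i = k + 1 + 0 := by omega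
            exact (hj.symm.trans e).trans
              (cat_add C.L (fun j => B.L (n + 1 + φ j' + j)) (k + 1) 0).symm
        · by_cases hlk : l < X.L k
          · rw [hq l hlk, splice_q_lt (by omega)]
          · have h0 : X.L 0 ≤ X.L k := X.mono.monotone (Nat.zero_le _)
            have := hX3 l (by omega)
            rw [splice_q_ge (by omega)] at this
            rw [splice_q_ge (by omega)]
            exact ext_tot this (total_tot _)
    refine ⟨A, mem_nbhd.2 ⟨⟨?_, ?_⟩, r_splice _ _ _ _ _ _⟩, ?_⟩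
    · rintro _ ⟨i, rfl⟩
      rcases cat_cases B.L (fun j => B.L (n + 1 + φ j)) (n + 1) i with ⟨-, e⟩ | ⟨j', -, e⟩
      · exact ⟨_, e.symm⟩
      · exact ⟨_, e.symm⟩
    · intro l _
      by_cases hl : l < B.L n
      · rw [splice_q_lt hl]; exact ext_refl _
      · rw [splice_q_ge hl]; exact total_ext _
    · rcases hP with hP | hP
      · left
        intro X hX
        obtain ⟨j, hj⟩ := key X hX
        rw [hj]; exact hP j
      · right
        intro X hX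
        obtain ⟨j, hj⟩ := key X hX
        rw [hj]; exact hP j

theorem leFin_refl (a : AR) : leFin a a := ⟨fun _ h => h, fun _ _ _ => ext_refl _⟩

theorem leFin_trans (a b c : AR) (h1 : leFin a b) (h2 : leFin b c) : leFin a c := by
  refine ⟨fun x h => h2.1 x (h1.1 x h), fun k hi hj => ext_trans (h1.2 k hi hj) (h2.2 k ?_ ?_)⟩
  · obtain ⟨i, hi, hi'⟩ := hi; exact ⟨i, h1.1 _ hi, hi'⟩
  · obtain ⟨i, hi, hi'⟩ := hj; exact ⟨i, h1.1 _ hi, hi'⟩

theorem finite_bdd (N : ℕ) : {a : AR | ∀ y ∈ a.1.1, y < N}.Finite := by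
  apply Set.Finite.of_finite_image (f := Subtype.val) _ Subtype.val_injective.injOn
  refine ((finite_lists (Set.finite_Iio N) N).prod (finite_lists (valid_finite N) N)).subset ?_
  rintro _ ⟨a, ha, rfl⟩
  obtain ⟨n, A, rfl⟩ := r_surj a
  have h : n ≤ N ∧ cut A n ≤ N := by
    cases n with
    | zero => exact ⟨Nat.zero_le _, Nat.zero_le _⟩
    | succ n =>
      have := ha _ (mem_r.2 ⟨n, Nat.lt_succ_self n, rfl⟩)
      exact ⟨(A.mono.le_apply (x := n)).trans_lt this, this.le⟩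
  refine ⟨⟨by simpa [r, r0] using h.1, ha⟩, by simpa [r, r0] using h.2, fun d hd => ?_⟩
  obtain ⟨k, hk, rfl⟩ := List.mem_map.1 hd
  exact valid_mono (A.valid k) ((List.mem_range.1 hk).le.trans h.2)

theorem A2_1 (b : AR) : {a | leFin a b}.Finite := by
  obtain ⟨N, hN⟩ := b.1.1.finite_toSet.bddAbove
  exact (finite_bdd (N + 1)).subset fun _ ha _ hy => Nat.lt_succ_of_le (hN (ha.1 _ hy))

theorem A2_2 (A B : E) : le A B ↔ ∀ n, ∃ m, leFin (r n A) (r m B) := by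
  constructor
  · rintro ⟨h2, h1⟩ n
    choose f hf using fun i => h2 ⟨i, rfl⟩
    refine ⟨f n, leFin_iff.2 ⟨fun i hi => ⟨f i, ?_, (hf i).symm⟩, fun k hk _ => h1 k hk⟩⟩
    apply B.mono.lt_iff_lt.1
    rw [hf, hf]; exact A.mono hi
  · intro h
    constructor
    · rintro _ ⟨i, rfl⟩
      obtain ⟨m, hm⟩ := h (i + 1)
      obtain ⟨j, -, e⟩ := (leFin_iff.1 hm).1 i (by omega)
      exact ⟨j, e.symm⟩
    · intro k hk
      obtain ⟨m, hm⟩ := h (k + 2)
      exact (leFin_iff.1 hm).2 k hk (Nat.lt_of_succ_le (A.mono.le_apply (x := k + 1)))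

theorem A2_3_strict (a b c : AR) (h : IsInit r a b) (hne : a ≠ b) (hbc : leFin b c) :
    ∃ d, IsInit r d c ∧ d ≠ c ∧ leFin a d := by
  obtain ⟨B, n, m, hnm, rfl, rfl⟩ := h
  obtain ⟨k, C, rfl⟩ := r_surj c
  have hlt : n < m := lt_of_le_of_ne hnm (by rintro rfl; exact hne rfl)
  obtain ⟨h2, h1⟩ := leFin_iff.1 hbc
  obtain ⟨j, hj, e⟩ := h2 n hlt
  refine ⟨r j C, ⟨C, j, k, hj.le, rfl, rfl⟩, fun h => hj.ne (r_eq_iff.1 h).1,
    leFin_iff.2 ⟨fun i hi => ?_, fun l hl hl' => h1 l hl (hl'.trans_le (cut_mono B hnm))⟩⟩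
  obtain ⟨j', -, e'⟩ := h2 i (by omega)
  refine ⟨j', ?_, e'⟩
  apply C.mono.lt_iff_lt.1
  rw [← e, ← e']; exact B.mono hi

theorem A2_3 (a b c : AR) (h : IsInit r a b) (hbc : leFin b c) :
    ∃ d, IsInit r d c ∧ leFin a d := by
  by_cases hne : a = b
  · subst hne
    obtain ⟨k, C, rfl⟩ := r_surj c
    exact ⟨r k C, ⟨C, k, k, le_rfl, rfl, rfl⟩, hbc⟩
  · obtain ⟨d, h1, -, h2⟩ := A2_3_strict a b c h hne hbc
    exact ⟨d, h1, h2⟩

theorem lt_cut (A : E) (k : ℕ) : k < cut A (k + 2) :=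
  Nat.lt_of_succ_le (A.mono.le_apply (x := k + 1))

theorem limit (s : Fn ℕ AR) (h : ∀ N, ∃ A, ∀ n ≤ N, r n A = s n) : ∃ A, ∀ n, r n A = s n := by
  obtain ⟨A, hA⟩ := chs h
  have coh : ∀ n N M, n ≤ N → n ≤ M → r n (A N) = r n (A M) := fun n N M h1 h2 => by
    rw [hA N n h1, hA M n h2]
  have cx : ∀ i N, i < N → (A N).L i = (A (i + 1)).L i := fun i N hi =>
    (r_eq_iff.1 (coh (i + 1) N (i + 1) hi le_rfl)).2.1 i (by omega)
  have cq : ∀ k N, k < cut (A N) N → (A N).q k = (A (k + 2)).q k := by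
    intro k N hk
    rcases le_total N (k + 2) with h | h
    · exact (r_eq_iff.1 (coh N N (k + 2) le_rfl h)).2.2 k hk
    · exact ((r_eq_iff.1 (coh (k + 2) (k + 2) N le_rfl h)).2.2 k (lt_cut _ _)).symm
  refine ⟨⟨lm fun i => (A (i + 1)).L i, lm fun k => (A (k + 2)).q k, fun i j hij => ?_,
    fun k => (A _).valid k, fun k hk => ?_, fun k hk => ?_⟩, fun n => ?_⟩
  · show (A (i + 1)).L i < (A (j + 1)).L j
    rw [← cx i (j + 1) (by omega)]
    exact (A (j + 1)).mono hij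
  · exact (A (k + 2)).junk k (by rw [cx 0 (k + 2) (by omega)]; exact hk)
  · show Tot ((A (k + 2)).q k) → Tot ((A (k + 3)).q (k + 1))
    rw [← cq k (k + 3) ((lt_cut _ k).trans_le (cut_mono _ (by omega)))]
    exact (A (k + 3)).up k (by rw [cx 0 (k + 3) (by omega)]; exact hk)
  · rw [← hA n n le_rfl]
    symm
    exact r_eq_iff.2 ⟨rfl, fun i hi => cx i n hi, fun k hk => cq k n hk⟩

/-- an element with prescribed levels and total decorations -/
def mkTot (φ : Fn ℕ ℕ) (hφ : StrictMono φ) (t : Fn ℕ D) (hv : ∀ k, Valid k (t k))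
    (ht : ∀ k, Tot (t k)) : E where
  L := φ
  q := lm fun k => if k < φ 0 then dflt else t k
  mono := hφ
  valid := fun k => by
    rw [lm_apply]
    split_ifs
    · exact dflt_valid k
    · exact hv k
  junk := fun k hk => if_pos hk
  up := fun k hk _ => by
    rw [lm_apply, if_neg (by omega)]
    exact ht _

theorem mkTot_q {φ : Fn ℕ ℕ} {hφ : StrictMono φ} {t : Fn ℕ D} {hv : ∀ k, Valid k (t k)}
    {ht : ∀ k, Tot (t k)} {k : ℕ} (hk : φ 0 ≤ k) : (mkTot φ hφ t hv ht).q k = t k :=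
  if_neg (by omega)

theorem A1_2 (A B : E) (hne : A ≠ B) : ∃ n, r n A ≠ r n B := by
  by_contra hc
  push Not at hc
  exact hne (E.ext (Fn.ext fun i => (r_eq_iff.1 (hc (i + 1))).2.1 i (by omega))
    (Fn.ext fun k => (r_eq_iff.1 (hc (k + 2))).2.2 k (lt_cut _ _)))

theorem A1_3 (A B : E) (n m : ℕ) (h : r n A = r m B) : n = m ∧ ∀ k < n, r k A = r k B := by
  obtain ⟨h1, h2, h3⟩ := r_eq_iff.1 h
  exact ⟨h1, fun k hk => r_eq_iff.2 ⟨rfl, fun i hi => h2 i (by omega),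
    fun l hl => h3 l (hl.trans_le (cut_mono A hk.le))⟩⟩

end Pool.Agent.P.MP_fdc1ac_lc.W
end
end

-- part Pool.Agent.P.MP_fdc1ac_lc.Md.T3
section

set_option autoImplicit false
set_option linter.unusedSectionVars false
set_option synthInstance.maxSize 4000

/-! The coarsening, pseudointersections and towers inside the model. -/

noncomputable section

open Pool.Agent.P.MP_af1204_lc.Inn hiding range image univ Iio Iic
open Pool.Agent.P.MP_0d6be8_lc.NKW Filter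
open Set (range)

namespace Pool.Agent.P.MP_fdc1ac_lc.W

variable [Md] [Std]

theorem leStar_refl (A : E) : leStar A A := ⟨by simp, Eventually.of_forall fun _ => ext_refl _⟩

theorem leStar_trans (A B C : E) (h1 : leStar A B) (h2 : leStar B C) : leStar A C :=
  ⟨diff_finite_trans h1.1 h2.1, by
    filter_upwards [h1.2, h2.2] with k a b using ext_trans a b⟩

theorem range_inf (A : E) : (range A.L).Infinite :=
  Set.infinite_range_of_injective A.mono.injective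

theorem leStar_eq : leStar = sepLe le := by
  funext A B
  apply propext
  constructor
  · rintro ⟨h2, h1⟩ Z hZ
    obtain ⟨N, hN⟩ := eventually_atTop.1 h1
    have hinf : {m | m ∈ range Z.L ∧ m ∈ range B.L}.Infinite := by
      refine ((range_inf Z).sdiff h2).mono ?_
      rintro y ⟨hy, hy'⟩
      refine ⟨hy, ?_⟩
      by_contra hc
      exact hy' ⟨hZ.1 hy, hc⟩
    obtain ⟨φ, hφ, h0, hs⟩ := exists_enum (N + Z.L 0) _ hinf
    refine ⟨restrict Z φ hφ (by omega), restrict_le (Set.range_subset_iff.2 fun i => (hs i).1),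
      Set.range_subset_iff.2 fun i => (hs i).2, fun k hk => ?_⟩
    have hk : φ 0 ≤ k := hk
    rw [restrict_q hk]
    exact ext_trans (hZ.2 k (by omega)) (hN k (by omega))
  · intro h
    constructor
    · by_contra hn
      obtain ⟨φ, hφ, h0, hs⟩ := exists_enum (A.L 0) (fun m => m ∈ range A.L ∧ ¬ m ∈ range B.L) hn
      have k := restrict_le (hφ := hφ) (h := h0) (Set.range_subset_iff.2 fun i => (hs i).1)
      obtain ⟨W, hW, hW'⟩ := h _ k
      obtain ⟨i, hi⟩ := hW.1 ⟨0, rfl⟩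
      exact (hs i).2 (hi ▸ hW'.1 ⟨0, rfl⟩)
    · obtain ⟨t, h0⟩ := chs (R := fun k t => Valid k t ∧ Tot t ∧ ext t (A.q k) ∧
          (1 ≤ k → ¬ ext (A.q k) (B.q k) → ¬ ext t (B.q k))) fun k => by
        by_cases hk : 1 ≤ k
        · obtain ⟨t, a, b, c, d⟩ := exists_sep hk (A.valid k) (B.valid k)
          exact ⟨t, a, b, c, fun _ => d⟩
        · exact ⟨total (A.q k), total_valid (A.valid k), total_tot _, total_ext _,
            fun h => (hk h).elim⟩
      have ht := fun k => (h0 k).2.1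
      obtain ⟨W, hW, hW'⟩ := h (mkTot A.L A.mono t (fun k => (h0 k).1) ht)
        ⟨subset_rfl, fun k hk => by rw [mkTot_q (φ := A.L) hk]; exact (h0 k).2.2.1⟩
      filter_upwards [eventually_ge_atTop 1, eventually_ge_atTop (W.L 0)] with k h1 h2
      by_contra hc
      apply (h0 k).2.2.2 h1 hc
      have h3 := hW.2 k h2
      rw [mkTot_q (φ := A.L) ((L0_le hW.1).trans h2)] at h3
      rw [← ext_tot h3 (ht k)]
      exact hW'.2 k h2

theorem lit_or_tot (A : E) : (∀ᶠ k in atTop, Tot (A.q k)) ∨ ∀ᶠ k in atTop, ¬ Tot (A.q k) := by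
  by_cases h : ∃ k, A.L 0 ≤ k ∧ Tot (A.q k)
  · obtain ⟨k, hk, hk'⟩ := h
    left
    refine eventually_atTop.2 ⟨k, fun l hl => ?_⟩
    induction hl with
    | refl => exact hk'
    | step hl ih => exact A.up _ (hk.trans hl) ih
  · right
    exact eventually_atTop.2 ⟨A.L 0, fun l hl hc => h ⟨l, hl, hc⟩⟩

theorem exists_q_chain (T : Set E) (hT : ∀ X ∈ T, ∀ Y ∈ T, leStar X Y ∨ leStar Y X) :
    ∃ t : Fn ℕ D, (∀ k, Valid k (t k)) ∧ ∀ X ∈ T, ∀ᶠ k in atTop, ext (t k) (X.q k) := by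
  by_cases h : ∃ X ∈ T, ∀ᶠ k in atTop, Tot (X.q k)
  · obtain ⟨X, hX, hc⟩ := h
    refine ⟨X.q, X.valid, fun Y hY => ?_⟩
    rcases hT X hX Y hY with h | h
    · exact h.2
    · filter_upwards [h.2, hc] with k a b
      rw [ext_tot a b]; exact ext_refl _
  · rcases T.eq_empty_or_nonempty with rfl | ⟨X, hX⟩
    · exact ⟨Fn.const ℕ dflt, dflt_valid, by simp⟩
    · refine ⟨X.q, X.valid, fun Y hY => ?_⟩
      rcases hT X hX Y hY with h' | h'
      · exact h'.2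
      · have := (lit_or_tot Y).resolve_left fun hc => h ⟨Y, hY, hc⟩
        filter_upwards [h'.2, this] with k a b
        rw [ext_lit a b]; exact ext_refl _

theorem exists_lower (T : Set E) (Y : ℕ → Prop) [DP Y] (hY : {m | Y m}.Infinite)
    (h1 : ∀ X ∈ T, ({m | Y m} \ range X.L).Finite) (t : Fn ℕ D) (hv : ∀ k, Valid k (t k))
    (h2 : ∀ X ∈ T, ∀ᶠ k in atTop, ext (t k) (X.q k)) : HasPseudo leStar T := by
  obtain ⟨φ, hφ, -, hs⟩ := exists_enum 0 Y hY
  refine ⟨mkTot φ hφ (lm fun k => total (t k)) (fun k => total_valid (hv k)) fun k => total_tot _,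
    fun X hX => ⟨(h1 X hX).subset
      (Set.sdiff_subset_sdiff_left (Set.range_subset_iff.2 hs)), ?_⟩⟩
  filter_upwards [h2 X hX, eventually_ge_atTop (φ 0)] with k a b
  exact ext_trans (Or.inl (mkTot_q b)) (ext_trans (total_ext _) a)

theorem freq_of_lower {ι : Type} {s : Set ι} (hs : s.Finite) (A : ι → E) (Y : E)
    (h : ∀ i ∈ s, leStar Y (A i)) : ∃ᶠ k in atTop, ∀ i ∈ s, k ∈ range (A i).L := by
  rw [Nat.frequently_atTop_iff_infinite]
  refine ((range_inf Y).sdiff (hs.biUnion fun i hi => (h i hi).1)).mono ?_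
  rintro x ⟨hx, hx'⟩ i hi
  by_contra hc
  exact hx' (Set.mem_biUnion hi ⟨hx, hc⟩)

theorem pseudo_of_seq (A Y : Fn ℕ E) (h : ∀ n, ∀ i ≤ n, leStar (Y n) (A i)) :
    HasPseudo leStar (range A) := by
  classical
  obtain ⟨φ, hφ, hφ'⟩ := extract (fun n k => ∀ i ≤ n, k ∈ range (A i).L) fun n =>
    freq_of_lower (Set.finite_Iic n) A (Y n) (h n)
  obtain ⟨t, ht⟩ := chs (R := fun k t => Valid k t ∧ ∀ i ≤ k,
      (∀ j ≤ i, ext ((Y i).q k) ((A j).q k)) → ext t ((A i).q k)) fun k => by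
    let P : ℕ → Prop := fun n => ∀ i ≤ n, ext ((Y n).q k) ((A i).q k)
    exact ⟨(Y (Nat.findGreatest P k)).q k, (Y _).valid k, fun i b hP =>
      Nat.findGreatest_spec (P := P) b hP i (Nat.le_findGreatest b hP)⟩
  refine exists_lower _ (· ∈ range φ) (Set.infinite_range_of_injective hφ.injective) ?_ t
    (fun k => (ht k).1) ?_
  · rintro _ ⟨i, rfl⟩
    refine ((Set.finite_Iio i).image φ).subset ?_
    rintro _ ⟨⟨n, rfl⟩, hn⟩
    exact ⟨n, not_le.1 fun hc => hn (hφ' n i hc), rfl⟩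
  · rintro _ ⟨i, rfl⟩
    have : ∀ᶠ k in atTop, ∀ j ∈ Set.Iic i, ext ((Y i).q k) ((A j).q k) :=
      (eventually_all_finite (Set.finite_Iic i)).2 fun j hj => (h i j hj).2
    filter_upwards [this, eventually_ge_atTop i] with k a b using (ht k).2 i b a

theorem sigmaClosed (X : Fn ℕ E) (h : ∀ n, leStar (X (n + 1)) (X n)) :
    ∃ Y, ∀ n, leStar Y (X n) := by
  have hle : ∀ n, ∀ i ≤ n, leStar (X n) (X i) := by
    intro n i hi
    induction hi with
    | refl => exact leStar_refl _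
    | step _ ih => exact leStar_trans _ _ _ (h _) ih
  obtain ⟨Y, hY⟩ := pseudo_of_seq X X hle
  exact ⟨Y, fun n => hY _ ⟨n, rfl⟩⟩

instance : Nonempty E :=
  ⟨mkTot Fn.id strictMono_id (Fn.const ℕ dflt) dflt_valid fun _ => dflt_tot⟩

theorem p_lower (F : PS E) (hc : Cnt (· ∈ F))
    (h : ∀ G : Set E, G.Finite → (∀ X ∈ G, X ∈ F) → HasPseudo leStar G) :
    ∃ Y, ∀ X ∈ F, leStar Y X := by
  rcases eq_empty_or_nonempty F with rfl | ⟨X0, h0⟩
  · exact ⟨Classical.arbitrary E, fun _ k => k.elim⟩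
  classical
  obtain ⟨e, he⟩ := hc.enum
  let A : Fn ℕ E := lm fun n => if e n ∈ F then e n else X0
  have hA : ∀ n, A n ∈ F := fun n => by
    simp only [A, lm_apply]
    split_ifs with k
    exacts [k, h0]
  obtain ⟨Y, hY⟩ := chs (R := fun n Y => ∀ i ≤ n, leStar Y (A i)) fun n => by
    obtain ⟨Y, hY⟩ := h (A '' Set.Iic n) ((Set.finite_Iic n).image _) (by
      rintro _ ⟨i, -, rfl⟩; exact hA i)
    exact ⟨Y, fun i hi => hY _ ⟨i, hi, rfl⟩⟩
  obtain ⟨Z, hZ⟩ := pseudo_of_seq A Y hY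
  refine ⟨Z, fun X hX => hZ X ?_⟩
  obtain ⟨n, rfl⟩ := he X hX
  exact ⟨n, if_pos hX⟩

theorem exists_split (Y : E) : ∃ Z, leStar Z Y ∧ ¬ leStar Y Z := by
  have h1 : StrictMono (lm fun j => Y.L (2 * j)) := fun _ _ h => Y.mono (by omega)
  have h2 : Y.L 0 ≤ (lm fun j => Y.L (2 * j)) 0 := le_rfl
  have h3 := restrict_le (hφ := h1) (h := h2) (by rintro _ ⟨j, rfl⟩; exact ⟨_, rfl⟩)
  refine ⟨_, leStar_eq ▸ sepLe_of_le le_refl' le_trans' h3, fun h => ?_⟩
  refine Set.infinite_range_of_injective (f := fun j => Y.L (2 * j + 1))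
    (fun a b e => by have := Y.mono.injective e; omega) (h.1.subset ?_)
  rintro _ ⟨j, rfl⟩
  refine ⟨⟨_, rfl⟩, fun ⟨i, e⟩ => ?_⟩
  have := Y.mono.injective e
  omega

theorem exists_tower : ∃ T : PS E, (∀ X ∈ T, ∀ Y ∈ T, leStar X Y ∨ leStar Y X) ∧
    (∀ X ∈ T, ∀ Y ∈ T, leStar X Y → leStar Y X → X = Y) ∧ ¬ ∃ Y, ∀ X ∈ T, leStar Y X := by
  obtain ⟨T, -, h1, h2⟩ := exists_max (X := E) (fun l => ∀ X ∈ l, ∀ Y ∈ l,
    (leStar X Y ∨ leStar Y X) ∧ (leStar X Y → leStar Y X → X = Y)) (fun _ => False)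
    fun l hl X hX => (hl X hX).elim
  have h3 := fun X (hX : X ∈ T) Y (hY : Y ∈ T) =>
    h1 [X, Y] (by simp [hX, hY]) X (by simp) Y (by simp)
  refine ⟨T, fun X hX Y hY => (h3 X hX Y hY).1, fun X hX Y hY => (h3 X hX Y hY).2,
    fun ⟨Y, hY⟩ => ?_⟩
  obtain ⟨Z, z1, z2⟩ := exists_split Y
  refine z2 (hY Z (h2 Z fun l hl A hA B hB => ?_))
  rcases hl A hA with rfl | a <;> rcases hl B hB with rfl | b
  · exact ⟨Or.inl (leStar_refl _), fun _ _ => rfl⟩
  · exact ⟨Or.inl (leStar_trans _ _ _ z1 (hY _ b)),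
      fun _ k => (z2 (leStar_trans _ _ _ (hY _ b) k)).elim⟩
  · exact ⟨Or.inr (leStar_trans _ _ _ z1 (hY _ a)),
      fun k _ => (z2 (leStar_trans _ _ _ (hY _ a) k)).elim⟩
  · exact h3 A a B b

/-- families indexed by `W` with infinite finite intersections have pseudointersections -/
def PI (W : Type) [MT W] : Prop :=
  ∀ B : Fn W (PS ℕ), (∀ l : List W, ∃ᶠ m in atTop, ∀ a ∈ l, m ∈ B a) →
    ∃ Y : PS ℕ, {m | m ∈ Y}.Infinite ∧ ∀ a, {m | m ∈ Y ∧ m ∉ B a}.Finite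

theorem t_lower {W : Type} [MT W] (h : PI W) (e : Fn W E)
    (hT : ∀ a b, leStar (e a) (e b) ∨ leStar (e b) (e a)) : HasPseudo leStar (range e) := by
  obtain ⟨t, hv, ht⟩ := exists_q_chain (range e) (by
    rintro _ ⟨a, rfl⟩ _ ⟨b, rfl⟩; exact hT a b)
  obtain ⟨Y, h1, h2⟩ := h (lm fun a => sb fun m => m ∈ range (e a).L) fun l => by
    obtain ⟨Z, hZ⟩ : ∃ Z, (∀ a ∈ l, leStar Z (e a)) ∧ (l = [] ∨ ∃ b, Z = e b) := by
      induction l with
      | nil => exact ⟨Classical.arbitrary E, by simp, Or.inl rfl⟩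
      | cons a l ih =>
        obtain ⟨Z, k1, rfl | ⟨b, rfl⟩⟩ := ih
        · exact ⟨e a, by simpa using leStar_refl _, Or.inr ⟨a, rfl⟩⟩
        · rcases hT a b with k | k
          · exact ⟨e a, List.forall_mem_cons.2 ⟨leStar_refl _,
              fun c hc => leStar_trans _ _ _ k (k1 c hc)⟩, Or.inr ⟨a, rfl⟩⟩
          · exact ⟨e b, List.forall_mem_cons.2 ⟨k, k1⟩, Or.inr ⟨b, rfl⟩⟩
    exact freq_of_lower l.finite_toSet e Z hZ.1
  exact exists_lower _ (· ∈ Y) h1 (by rintro _ ⟨a, rfl⟩; exact h2 a) t hv ht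

end Pool.Agent.P.MP_fdc1ac_lc.W
end
end

-- part Pool.Agent.P.MP_fdc1ac_lc.Md.T4
section

set_option autoImplicit false
set_option linter.unusedSectionVars false
set_option synthInstance.maxSize 4000

/-! A Luzin family inside the model. -/

noncomputable section

open Pool.Agent.P.MP_af1204_lc.Inn hiding range image univ Iio Iic
open Pool.Agent.P.MP_0d6be8_lc.NKW Filter
open Set (range)

namespace Pool.Agent.P.MP_fdc1ac_lc.W

/-- literal sequences `f`, `g` clash at `k` -/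
def Clash (f g : ℕ → ℕ × Bool) (k : ℕ) : Prop := (f k).1 = (g k).1 ∧ (f k).2 ≠ (g k).2

variable [Md] [Std]

/-- sequences of literals -/
abbrev Sq := Fn ℕ (ℕ × Bool)

instance {Γ : Type} [MC Γ] (f f' : Γ → Sq) (k : Γ → ℕ) [DD f] [DD f'] [DD k] :
    DP fun g => Clash (f g) (f' g) (k g) := by
  unfold Clash; infer_instance

variable {W : Type} [MT W]

/-- the inductive step -/
def St (J : W → Prop) (g : W → Sq) (f : Sq) : Prop :=
  (∀ k, (f k).1 ≤ k) ∧ (∀ j, J j → ∀ᶠ k in atTop, (f k).1 ≠ (g j k).1) ∧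
    ∀ n, ∃ l : List W, ∀ j, J j → (∀ k, n ≤ k → ¬ Clash f (g j) k) → j ∈ l

theorem luzin_step (J : W → Prop) [DP J] (hJ : Cnt J) (g : Fn W Sq)
    (hb : ∀ j, J j → ∀ k, (g j k).1 ≤ k)
    (hd : ∀ i j, J i → J j → i ≠ j → ∀ᶠ k in atTop, (g i k).1 ≠ (g j k).1) :
    ∃ f : Sq, St J g f := by
  classical
  obtain ⟨e, he⟩ := hJ
  have hfin : ∀ n, {j | J j ∧ e j < n}.Finite := fun n =>
    Set.Finite.of_finite_image (f := e) ((Set.finite_Iio n).subset (by
      rintro _ ⟨j, hj, rfl⟩; exact hj.2)) fun a ha b hb => he a b ha.1 hb.1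
  obtain ⟨m, hm⟩ := chsH (P := J) (R := fun j m => ∀ i, J i → e i < e j →
      (g j (Nat.pair (e j) m)).1 ≠ (g i (Nat.pair (e j) m)).1) fun j hj => by
    have : ∀ᶠ k in atTop, ∀ i ∈ {i | J i ∧ e i < e j}, (g j k).1 ≠ (g i k).1 :=
      (eventually_all_finite (hfin _)).2 fun i hi => hd j i hj hi.1 (by
        rintro rfl; exact lt_irrefl (e j) hi.2)
    obtain ⟨N, hN⟩ := eventually_atTop.1 this
    exact ⟨N, fun i hi hi' => hN _ (Nat.right_le_pair _ _) i ⟨hi, hi'⟩⟩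
  let K : W → ℕ := fun j => Nat.pair (e j) (m j)
  have hKe : ∀ j, e j ≤ K j := fun j => Nat.left_le_pair _ _
  obtain ⟨f, hf⟩ := chs (R := fun k (y : ℕ × Bool) =>
      (∀ j, J j → Nat.pair (e j) (m j) = k → y.1 = (g j k).1 ∧ y.2 ≠ (g j k).2) ∧
      ((¬ ∃ j, J j ∧ Nat.pair (e j) (m j) = k) →
        y.1 ≤ k ∧ ∀ j, J j → e j < k → y.1 ≠ (g j k).1)) fun k => by
    by_cases h : ∃ j, J j ∧ K j = k
    · obtain ⟨j, hj, rfl⟩ := h
      refine ⟨((g j (K j)).1, !(g j (K j)).2), fun i hi e' => ?_, fun h => (h ⟨j, hj, rfl⟩).elim⟩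
      obtain rfl := he _ _ hi hj (Nat.pair_eq_pair.1 e').1
      simp
    · have hc : ((hfin k).toFinset.image fun j => (g j k).1).card <
          (Finset.range (k + 1)).card := by
        refine Finset.card_image_le.trans_lt ?_
        rw [Finset.card_range]
        refine Nat.lt_succ_of_le ?_
        conv_rhs => rw [← Finset.card_range k]
        exact Finset.card_le_card_of_injOn e (fun j hj => by simp at hj ⊢; exact hj.2)
          fun a ha b hb => he a b (by simp at ha; exact ha.1) (by simp at hb; exact hb.1)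
      obtain ⟨v, hv, hv'⟩ := Finset.exists_mem_notMem_of_card_lt_card hc
      exact ⟨(v, true), fun j hj e' => (h ⟨j, hj, e'⟩).elim, fun _ =>
        ⟨Nat.le_of_lt_succ (Finset.mem_range.1 hv), fun j hj hj' h =>
          hv' (Finset.mem_image.2 ⟨j, by simp [hj, hj'], h.symm⟩)⟩⟩
  refine ⟨f, fun k => ?_, fun j hj => ?_, fun n => ⟨(hfin n).toFinset.toList, fun j hj h => ?_⟩⟩
  · by_cases h : ∃ j, J j ∧ K j = k
    · obtain ⟨j, hj, e'⟩ := h
      rw [((hf k).1 j hj e').1]; exact hb j hj k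
    · exact ((hf k).2 h).1
  · filter_upwards [fin_iff.1 ((hfin (e j + 1)).image K), eventually_gt_atTop (e j)] with k hk hk'
    by_cases h : ∃ j, J j ∧ K j = k
    · obtain ⟨i, hi, rfl⟩ := h
      rw [((hf _).1 i hi rfl).1]
      exact hm i hi j hj (not_le.1 fun hc => hk ⟨i, ⟨hi, by omega⟩, rfl⟩)
    · exact ((hf k).2 h).2 j hj hk'
  · simp only [Finset.mem_toList, Set.Finite.mem_toFinset, Set.mem_ofPred_eq]
    exact ⟨hj, not_le.1 fun hc => h (K j) (hc.trans (hKe j)) ((hf _).1 j hj rfl)⟩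

variable [LinearOrder W] [WFL W]

theorem exists_luzin (hc : ∀ i : W, Cnt (· < i)) : ∃ F : Fn W Sq, ∀ i, St (· < i) F (F i) :=
  have : DP3 fun (t : W) (F : Fn W Sq) (s : Sq) => St (· < t) F s := by
    unfold St; infer_instance
  exists_rec (fun t (F : Fn W Sq) s => St (· < t) F s)
    (fun t f g s e h => ⟨h.1, fun j hj => e j hj ▸ h.2.1 j hj,
      fun n => (h.2.2 n).imp fun l k j hj => e j hj ▸ k j hj⟩)
    fun t f ih => luzin_step _ (hc t) f (fun j hj => (ih j hj).1) fun a b ha hb hab => by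
      rcases lt_or_gt_of_ne hab with h | h
      · exact ((ih b hb).2.1 a h).mono fun k hk => hk.symm
      · exact (ih a ha).2.1 b h

/-- the element given by a sequence of literals -/
def ofLit (f : Sq) (hf : ∀ k, (f k).1 ≤ k) : E where
  L := Fn.id
  q := lm fun k => .inl (f k)
  mono := strictMono_id
  valid := fun k => valid_inl.2 (hf k)
  junk := fun _ hk => absurd hk (Nat.not_lt_zero _)
  up := fun _ _ ⟨_, h⟩ => by cases h

theorem ext_clash {t : D} {f g : ℕ → ℕ × Bool} {k : ℕ} (h1 : ext t (.inl (f k)))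
    (h2 : ext t (.inl (g k))) : ¬ Clash f g k := by
  rintro ⟨a, b⟩
  rcases h1 with rfl | ⟨s, l, rfl, e, h1⟩
  · exact b (by rw [Sum.inl.inj (ext_lit h2 fun ⟨_, h⟩ => by cases h)])
  · rcases h2 with h2 | ⟨s', l', e1, e2, h2⟩
    · cases h2
    · cases e; cases e1; cases e2
      exact b (by rw [← h1, ← h2, a])

theorem p_upper (hc : ∀ i : W, Cnt (· < i)) (hu : ¬ Cnt fun _ : W => True) :
    ∃ X : Fn W E, (∀ G : Set E, G.Finite → G ⊆ range X → HasPseudo leStar G) ∧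
      ¬ ∃ Y, ∀ i, leStar Y (X i) := by
  classical
  obtain ⟨F, hF⟩ := exists_luzin hc
  have hb := fun i => (hF i).1
  have hd : ∀ i j, i ≠ j → ∀ᶠ k in atTop, (F i k).1 ≠ (F j k).1 := fun i j hij => by
    rcases lt_or_gt_of_ne hij with h | h
    · exact ((hF j).2.1 i h).mono fun k hk => hk.symm
    · exact (hF i).2.1 j h
  have : DD fun i => ofLit (F i) (hb i) :=
    @dd_mk _ _ _ _ _ (by unfold ofLit; infer_instance) (by unfold ofLit; infer_instance)
  refine ⟨lm fun i => ofLit (F i) (hb i), fun G hfin hG => ?_, fun ⟨Y, hY⟩ => hu ?_⟩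
  · obtain ⟨l, rfl⟩ : ∃ l : List W, G = (fun i => ofLit (F i) (hb i)) '' {i | i ∈ l} := by
      obtain ⟨s, -, hs, e⟩ := Set.Finite.exists_subset_finite_image_eq
        (f := fun i => ofLit (F i) (hb i)) (s := Set.univ) hfin
        (fun Y hY => by obtain ⟨i, rfl⟩ := hG hY; exact ⟨i, trivial, rfl⟩)
      exact ⟨hs.toFinset.toList, by rw [← e]; congr 1; ext i; simp⟩
    refine exists_lower _ (fun _ => True) Set.infinite_univ (fun Y hY => ?_)
      (lm fun k => .inr ((List.range (k + 1)).map fun x =>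
        decide (∃ j, j ∈ l ∧ (F j k).1 = x ∧ (F j k).2 = true))) (fun k => valid_fun _ _)
      fun Y hY => ?_
    · obtain ⟨i, -, rfl⟩ := hY
      exact Set.finite_empty.subset fun m hm => hm.2 ⟨m, rfl⟩
    · obtain ⟨i, hi, rfl⟩ := hY
      have : ∀ᶠ k in atTop, ∀ j ∈ {j | j ∈ l}, j ≠ i → (F j k).1 ≠ (F i k).1 :=
        (eventually_all_finite l.finite_toSet).2 fun j _ => by
          by_cases h : j = i
          · exact Eventually.of_forall fun _ h' => (h' h).elim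
          · exact (hd j i h).mono fun _ h' _ => h'
      filter_upwards [this] with k hk
      refine (ext_fun _ (hb i k)).2 ?_
      cases hb' : (F i k).2
      · rw [decide_eq_false_iff_not]
        rintro ⟨j, hj1, e, hj2⟩
        by_cases hji : j = i
        · subst hji; rw [hb'] at hj2; exact absurd hj2 (by simp)
        · exact hk j hj1 hji e
      · exact decide_eq_true ⟨i, hi, rfl, hb'⟩
  · obtain ⟨c, h⟩ := chs (R := fun (i : W) (c : ℕ × ℕ) =>
        (∀ k, c.1 ≤ k → ext (Y.q k) (.inl (F i k))) ∧ ∃ l : List W, l.Nodup ∧ l.length = c.2 ∧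
          ∀ j, j ∈ l ↔ j < i ∧ ∀ k, c.1 ≤ k → ext (Y.q k) (.inl (F j k))) fun i => by
      obtain ⟨n, hn⟩ := eventually_atTop.1 (hY i).2
      obtain ⟨l, hl⟩ := (hF i).2.2 n
      have hf : {j | j < i ∧ ∀ k, n ≤ k → ext (Y.q k) (.inl (F j k))}.Finite :=
        l.finite_toSet.subset fun j hj => hl j hj.1 fun k hk => ext_clash (hn k hk) (hj.2 k hk)
      exact ⟨(n, _), hn, hf.toFinset.toList, Finset.nodup_toList _, rfl, by simp⟩
    have key : ∀ a b, a < b → c a ≠ c b := fun a b hab e => by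
      obtain ⟨h1, l, l1, l2, l3⟩ := h a
      obtain ⟨-, l', -, l5, l6⟩ := h b
      have := (List.subperm_of_subset (List.nodup_cons.2 ⟨fun k => lt_irrefl a ((l3 a).1 k).1, l1⟩)
        (List.cons_subset.2 ⟨(l6 a).2 ⟨hab, e ▸ h1⟩, fun j hj =>
          (l6 j).2 ⟨((l3 j).1 hj).1.trans hab, e ▸ ((l3 j).1 hj).2⟩⟩)).length_le
      rw [List.length_cons, l2, l5, e] at this
      omega
    refine ⟨lm fun i => Nat.pair (c i).1 (c i).2, fun a b _ _ e => ?_⟩
    have e' : c a = c b := Prod.ext (Nat.pair_eq_pair.1 e).1 (Nat.pair_eq_pair.1 e).2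
    by_contra hab
    rcases lt_or_gt_of_ne hab with k | k
    exacts [key a b k e', key b a k e'.symm]

end Pool.Agent.P.MP_fdc1ac_lc.W
end
end

-- part Pool.Agent.P.MP_fdc1ac_lc.Md.T5
section

set_option autoImplicit false
set_option linter.unusedSectionVars false
set_option synthInstance.maxSize 4000

/-! Codes of typed objects, and Martin's axiom in typed form. -/

noncomputable section

open Pool.Agent.Lib.PosetForcing (App IsFun IsFunOn LeCard IsOmega1)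
open Pool.Agent.P.MP_5f3b23_lc.Zf (mm om op app_iff isPair_iff op_inj mem_suc)
open Pool.Agent.P.MP_af1204_lc.Inn Pool.Agent.P.MP_0d6be8_lc.NKW Filter
open Pool.Agent.P.MP_93aff1_lc (MA)

namespace Pool.Agent.P.MP_fdc1ac_lc.W

variable [Md] [Std]

section code
variable {X Y : Type} [MT X] [MT Y]

theorem app_enc {f : Fn X Y} {x y : MM} : App mm (enc f) x y ↔ ∃ t, enc t = x ∧ enc (f t) = y :=
  app_iff.trans (Fn.mem_code.trans (exists_congr fun _ =>
    ⟨op_inj, fun h => by rw [h.1, h.2]⟩))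

theorem app_enc' {f : Fn X Y} {x : X} {y : MM} : App mm (enc f) (enc x) y ↔ y = enc (f x) :=
  app_enc.trans ⟨fun ⟨_, h, e⟩ => enc_inj.1 h ▸ e.symm, fun h => ⟨x, rfl, h.symm⟩⟩

theorem isFun_enc (f : Fn X Y) : IsFun mm (enc f) (car X) (car Y) := by
  refine ⟨fun p hp => ?_, fun x hx => ?_, fun x y y' h1 h2 => ?_⟩
  · obtain ⟨x, rfl⟩ := Fn.mem_code.1 hp
    exact ⟨_, _, isPair_iff.2 rfl, enc_mem x, enc_mem _⟩
  · obtain ⟨t, rfl⟩ := mem_car.1 hx
    exact ⟨_, app_enc'.2 rfl⟩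
  · obtain ⟨t, rfl, rfl⟩ := app_enc.1 h1
    exact (app_enc'.1 h2).symm

instance dd_op {Γ : Type} [MC Γ] (a b : Γ → MM) [ha : DD a] [hb : DD b] :
    DD fun g => op (a g) (b g) := by
  obtain ⟨A, _, h1⟩ := ha.out
  obtain ⟨B, _, h2⟩ := hb.out
  exact DD.of (fun x => op (A x) (B x)) fun g => by rw [h1, h2]; rfl

instance dp_App {Γ : Type} [MC Γ] (f a b : Γ → MM) [DD f] [DD a] [DD b] :
    DP fun g => App mm (f g) (a g) (b g) :=
  (inferInstance : DP fun g => op (a g) (b g) ∈ f g).congr fun _ => app_iff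

theorem isFun_iff {f : MM} (h : IsFun mm f (car X) (car Y)) : ∃ t : Fn X Y, enc t = f := by
  obtain ⟨t, ht⟩ := chs (R := fun (x : X) (y : Y) => App mm f (enc x) (enc y)) fun x => by
    obtain ⟨y, hy⟩ := h.2.1 _ (enc_mem x)
    obtain ⟨x', y', e, -, k⟩ := h.1 _ (app_iff.1 hy)
    obtain ⟨t, rfl⟩ := mem_car.1 k
    obtain ⟨-, rfl⟩ := op_inj (isPair_iff.1 e)
    exact ⟨t, hy⟩
  refine ⟨t, zext fun p => Fn.mem_code.trans
    ⟨fun ⟨x, e⟩ => e ▸ app_iff.1 (ht x), fun hp => ?_⟩⟩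
  obtain ⟨x, y, e, k, -⟩ := h.1 _ hp
  obtain ⟨x, rfl⟩ := mem_car.1 k
  obtain rfl := isPair_iff.1 e
  exact ⟨x, by rw [h.2.2 _ _ _ (ht x) (app_iff.2 hp)]⟩

theorem sub_iff {a : MM} (h : ∀ y, y ∈ a → y ∈ car X) : ∃ t : PS X, enc t = a :=
  (ps_car a).1 (MP_5f3b23_lc.Zf.mem_pow.2 h)

theorem mem_enc {B : PS X} {y : MM} : y ∈ enc B ↔ ∃ x, x ∈ B ∧ enc x = y := PS.mem_code

theorem enc_mem_enc {B : PS X} {x : X} : enc x ∈ enc B ↔ x ∈ B := PS.enc_mem_code

theorem enc_sub (B : PS X) (y : MM) (h : y ∈ enc B) : y ∈ car X :=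
  let ⟨x, _, e⟩ := mem_enc.1 h; e ▸ enc_mem x

theorem car_ps (T : PS X) : car T = enc T :=
  zext fun _ => mem_car.trans (Iff.trans ⟨fun ⟨t, e⟩ => ⟨t.1, t.2, e⟩,
    fun ⟨t, h, e⟩ => ⟨⟨t, h⟩, e⟩⟩ mem_enc.symm)

theorem car_fin (n : ℕ) : car (Fin n) = num n :=
  zext fun _ => mem_car.trans (Iff.trans ⟨fun ⟨t, e⟩ => ⟨t.1, t.2, e⟩,
    fun ⟨t, h, e⟩ => ⟨⟨t, h⟩, e⟩⟩ mem_num.symm)

theorem leCard_iff : LeCard mm (car X) (car Y) ↔ ∃ f : Fn X Y, Function.Injective f := by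
  refine ⟨fun ⟨j, h1, h2⟩ => ?_, fun ⟨f, hf⟩ => ⟨enc f, isFun_enc f, fun x x' y k k' => ?_⟩⟩
  · obtain ⟨e, rfl⟩ := isFun_iff h1
    exact ⟨e, fun m n k => enc_inj.1 (h2 _ _ _ (app_enc'.2 rfl) (app_enc'.2 (by rw [k])))⟩
  · obtain ⟨t, rfl, rfl⟩ := app_enc.1 k
    obtain ⟨t', rfl, e⟩ := app_enc.1 k'
    rw [hf (enc_inj.1 e)]

theorem cnt_iff {T : PS X} : LeCard mm (enc T) om ↔ Cnt (· ∈ T) := by
  classical
  rw [← car_ps, ← car_nat, leCard_iff]
  refine ⟨fun ⟨f, hf⟩ => ⟨lm fun B => if k : B ∈ T then f ⟨B, k⟩ else 0, fun B C k k' e => ?_⟩,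
    fun ⟨f, hf⟩ => ⟨lm fun x => f x.1, fun a b e => Subtype.ext (hf _ _ a.2 b.2 e)⟩⟩
  simp only [lm_apply, dif_pos k, dif_pos k'] at e
  exact congrArg Subtype.val (hf e)

theorem finite_iff {T : PS X} : (∃ n, mm n om ∧ LeCard mm (enc T) n) ↔ {x | x ∈ T}.Finite := by
  refine ⟨fun ⟨n, h1, h2⟩ => ?_, fun h => ?_⟩
  · obtain ⟨n, rfl⟩ := Std.std n h1
    rw [← car_ps, ← car_fin] at h2
    obtain ⟨f, hf⟩ := leCard_iff.1 h2
    exact Finite.of_injective (α := T) f hf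
  · have : Finite T := h
    obtain ⟨n, ⟨e⟩⟩ := Finite.exists_equiv_fin T
    refine ⟨_, num_mem_om n, ?_⟩
    rw [← car_ps, ← car_fin]
    exact leCard_iff.2 ⟨⟨e, DD.finite _⟩, e.injective⟩

theorem range_inj (f : Fn X Y) : ∃ g : Fn (range f) X, Function.Injective g := by
  obtain ⟨g, hg⟩ := chs (R := fun (t : range f) (x : X) => f x = t.1) fun t => t.2
  exact ⟨g, fun a b e => Subtype.ext (by rw [← hg a, e, hg b])⟩

/-- the code of a relation -/
def rc (l : X → X → Prop) [DP2 l] : MM := enc (sb fun p : X × X => l p.1 p.2)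

theorem app_rc {l : X → X → Prop} [DP2 l] {x y : X} : App mm (rc l) (enc x) (enc y) ↔ l x y :=
  app_iff.trans (enc_mem_enc (x := (x, y)))

theorem all_car {p : MM → Prop} : (∀ x, mm x (car X) → p x) ↔ ∀ x : X, p (enc x) :=
  ⟨fun h x => h _ (enc_mem x), fun h _ hx => let ⟨t, e⟩ := mem_car.1 hx; e ▸ h t⟩

theorem ex_car {p : MM → Prop} : (∃ x, mm x (car X) ∧ p x) ↔ ∃ x : X, p (enc x) :=
  ⟨fun ⟨_, hx, h⟩ => let ⟨t, e⟩ := mem_car.1 hx; ⟨t, e ▸ h⟩, fun ⟨x, h⟩ => ⟨_, enc_mem x, h⟩⟩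

end code

theorem ma_typed {c k : MM} (h : MA mm om c) (hk : ¬ LeCard mm c k) {Q : Type} [MT Q] (q0 : Q)
    (l : Q → Q → Prop) [DP2 l] (hr : ∀ x, l x x) (ht : ∀ x y z, l x y → l y z → l x z)
    (hc : ∀ A : PS Q, (∀ x ∈ A, ∀ y ∈ A, ∀ z, l z x → l z y → x = y) → Cnt (· ∈ A))
    (D : Fn (El k) (PS Q)) (hD : ∀ i x, ∃ y ∈ D i, l y x) :
    ∃ G : PS Q, (∀ x ∈ G, ∀ y ∈ G, ∃ z, l z x ∧ l z y) ∧ ∀ i, ∃ x ∈ G, x ∈ D i := by
  obtain ⟨G, ⟨g1, -, -, g2⟩, g3⟩ := h (car Q) (rc l) (enc (range D))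
    ⟨⟨_, enc_mem q0⟩, all_car.2 fun x => app_rc.2 (hr x), fun x y z hx hy hz => by
      obtain ⟨x, rfl⟩ := mem_car.1 hx
      obtain ⟨y, rfl⟩ := mem_car.1 hy
      obtain ⟨z, rfl⟩ := mem_car.1 hz
      simp only [app_rc]
      exact ht x y z⟩
    (fun A hA h => by
      obtain ⟨A, rfl⟩ := sub_iff hA
      exact cnt_iff.2 (hc A fun x hx y hy z k k' => not_not.1 fun e =>
        h _ _ (enc_mem_enc.2 hx) (enc_mem_enc.2 hy) (fun e' => e (enc_inj.1 e'))
          ⟨_, enc_mem z, app_rc.2 k, app_rc.2 k'⟩))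
    (fun A hA => by
      obtain ⟨_, ⟨i, rfl⟩, rfl⟩ := mem_enc.1 hA
      exact ⟨enc_sub _, all_car.2 fun x =>
        let ⟨y, h1, h2⟩ := hD i x; ⟨_, enc_mem_enc.2 h1, app_rc.2 h2⟩⟩)
    fun h => hk (by
      rw [← car_El c, ← car_ps] at h
      rw [← car_El c, ← car_El k]
      obtain ⟨f, hf⟩ := leCard_iff.1 h
      obtain ⟨g, hg⟩ := range_inj D
      exact leCard_iff.2 ⟨lm fun x => g (f x), hg.comp hf⟩)
  obtain ⟨G, rfl⟩ := sub_iff g1
  refine ⟨G, fun x hx y hy => ?_, fun i => ?_⟩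
  · obtain ⟨z, h1, h2, h3⟩ := g2 _ _ (enc_mem_enc.2 hx) (enc_mem_enc.2 hy)
    obtain ⟨z, -, rfl⟩ := mem_enc.1 h1
    exact ⟨z, app_rc.1 h2, app_rc.1 h3⟩
  · obtain ⟨z, h1, h2⟩ := g3 _ ((enc_mem_enc (x := D i)).2 ⟨i, rfl⟩)
    obtain ⟨z, h3, rfl⟩ := mem_enc.1 h1
    exact ⟨z, h3, enc_mem_enc.1 h2⟩

theorem isOd {k : MM} (h : IsOmega1 mm k om) : IsOd k := ⟨h.1, h.2.1⟩

theorem not_cnt {k : MM} (h : IsOmega1 mm k om) : ¬ Cnt fun _ : El k => True := fun ⟨f, hf⟩ =>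
  h.2.2.1 (by
    rw [← car_El k, ← car_nat]
    exact leCard_iff.2 ⟨f, fun a b => hf a b trivial trivial⟩)

theorem cnt_lt {k : MM} [IsOd k] (h : IsOmega1 mm k om) (i : El k) : Cnt (· < i) := by
  classical
  have := h.2.2.2 _ i.mem
  rw [← car_El i.v, ← car_nat] at this
  obtain ⟨f, hf⟩ := leCard_iff.1 this
  refine ⟨lm fun a => if k : a.v ∈ i.v then f (El.mk a.v k) else 0, fun a b k k' e => ?_⟩
  simp only [lm_apply, dif_pos (El.lt_def.1 k), dif_pos (El.lt_def.1 k')] at e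
  have e' := congrArg El.v (hf e)
  exact El.ext e'

theorem num_mem {k : MM} (h : IsOmega1 mm k om) (n : ℕ) : num n ∈ k := by
  have o := MP_5f3b23_lc.Zf.od_om.el (num_mem_om n)
  by_contra hn
  obtain ⟨f, hf⟩ := chs (R := fun (x : El k) (i : ℕ) => enc i = x.v) fun x => by
    refine (mem_num (n := n).1 ?_).imp fun _ k => k.2
    rcases (o.tri (isOd h).out).resolve_left hn with e | e
    exacts [e ▸ x.mem, o.tr e x.mem]
  exact not_cnt h ⟨f, fun a b _ _ e => El.ext (by rw [← hf a, e, hf b])⟩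

theorem pi_of_ma {c k : MM} (h : MA mm om c) (hk : ¬ LeCard mm c k) (h1 : IsOmega1 mm k om) :
    PI (El k) := fun B hB => by
  obtain ⟨j, hj⟩ := chsH (P := fun x : El k => ∃ i : ℕ, enc i = x.v)
    (R := fun x (i : ℕ) => enc i = x.v) fun _ h => h
  obtain ⟨G, g1, g2⟩ := ma_typed h hk (([], []) : List ℕ × List (El k))
    (fun p q => (∀ m ∈ q.1, m ∈ p.1) ∧ (∀ a ∈ q.2, a ∈ p.2) ∧
      ∀ m ∈ p.1, m ∈ q.1 ∨ ∀ a ∈ q.2, m ∈ B a)
    (fun _ => ⟨fun _ h => h, fun _ h => h, fun _ h => Or.inl h⟩)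
    (fun x y z a b => ⟨fun m h => a.1 m (b.1 m h), fun m h => a.2.1 m (b.2.1 m h), fun m h =>
      (a.2.2 m h).elim (b.2.2 m) fun e => Or.inr fun t ht => e t (b.2.1 t ht)⟩)
    (fun A hA => by
      obtain ⟨f, hf⟩ := cnt_nat.list
      refine ⟨lm fun x => f x.1, fun x y hx hy e => ?_⟩
      have e' := hf _ _ (fun _ _ => trivial) (fun _ _ => trivial) e
      exact hA x hx y hy (x.1, x.2 ++ y.2)
        ⟨fun _ h => h, fun _ h => List.mem_append_left _ h, fun _ h => Or.inl h⟩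
        ⟨fun _ h => e' ▸ h, fun _ h => List.mem_append_right _ h, fun _ h => Or.inl (e' ▸ h)⟩)
    (lm fun i => sb fun p => i ∈ p.2 ∧ ∃ m ∈ p.1, j i ≤ m) fun i x => by
      obtain ⟨m, m1, m2⟩ := frequently_atTop.1 (hB x.2) (j i)
      exact ⟨(m :: x.1, i :: x.2), ⟨List.mem_cons_self, m, List.mem_cons_self, m1⟩,
        fun _ h => List.mem_cons_of_mem _ h, fun _ h => List.mem_cons_of_mem _ h,
        fun t h => (List.mem_cons.1 h).elim (fun e => Or.inr (e ▸ m2)) Or.inl⟩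
  refine ⟨sb fun m => ∃ p ∈ G, m ∈ p.1, Set.infinite_of_forall_exists_gt fun n => ?_, fun a => ?_⟩
  · obtain ⟨p, p1, -, m, p2, p3⟩ := g2 (El.mk _ (num_mem h1 (n + 1)))
    rw [show j _ = n + 1 from enc_inj.1 (hj (El.mk _ (num_mem h1 (n + 1))) ⟨n + 1, rfl⟩)] at p3
    exact ⟨m, ⟨p, p1, p2⟩, p3⟩
  · obtain ⟨p, p1, p2, -⟩ := g2 a
    refine p.1.finite_toSet.subset fun m ⟨⟨q, q1, q2⟩, hm⟩ => ?_
    obtain ⟨z, z1, z2⟩ := g1 p p1 q q1
    exact (z1.2.2 m (z2.1 m q2)).resolve_right fun e => hm (e a p2)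

end Pool.Agent.P.MP_fdc1ac_lc.W
end
end

-- part Pool.Agent.P.MP_fdc1ac_lc.Md.Model
section

set_option autoImplicit false
set_option synthInstance.maxSize 40000

/-! A model of Martin's axiom and the failure of the continuum hypothesis whose natural numbers
are standard. -/

open Pool.Agent.Lib.PosetForcing Pool.Agent.P.MP_5f3b23_lc.Zf
open Pool.Agent.P.MP_0d6be8_lc.NKW (exists_omega_model zfc_map)
open Pool.Agent.P.MP_93aff1_lc

namespace Pool.Agent.P.MP_fdc1ac_lc.W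

universe v

instance ud_isOmega1 (i j : ℕ) : UD.{v} fun _ mem v => IsOmega1 mem (v i) (v j) := by
  unfold IsOmega1; infer_instance

instance ud_ma (i j : ℕ) : UD.{v} fun _ mem v => MA mem (v i) (v j) := by
  unfold MA IsPoset IsCCC IsDense IsFilter Compat Ne; infer_instance

section maps
variable {S : Type v} {N : Type} (m : S → S → Prop) (e : N ≃ S)

theorem app_map (f x y : N) :
    App m (e f) (e x) (e y) ↔ App (fun a b => m (e a) (e b)) f x y := by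
  simp only [App, IsPair, IsUPair, e.surjective.forall, e.surjective.exists, e.apply_eq_iff_eq]

theorem isPair_map (f x y : N) :
    IsPair m (e f) (e x) (e y) ↔ IsPair (fun a b => m (e a) (e b)) f x y := by
  simp only [IsPair, IsUPair, e.surjective.forall, e.apply_eq_iff_eq]

theorem leCard_map (x y : N) :
    LeCard m (e x) (e y) ↔ LeCard (fun a b => m (e a) (e b)) x y := by
  simp only [LeCard, IsInj, IsFun, IsFunOn, e.surjective.forall, e.surjective.exists,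
    e.apply_eq_iff_eq, app_map, isPair_map]

theorem isOmega_map (x : N) : IsOmega m (e x) ↔ IsOmega (fun a b => m (e a) (e b)) x := by
  simp only [IsOmega, IsInductive, IsSucc, e.surjective.forall, e.surjective.exists,
    e.apply_eq_iff_eq]

theorem isOmega1_map (x y : N) :
    IsOmega1 m (e x) (e y) ↔ IsOmega1 (fun a b => m (e a) (e b)) x y := by
  simp only [IsOmega1, IsSub, e.surjective.forall, leCard_map]

theorem ma_map (x y : N) : MA m (e x) (e y) ↔ MA (fun a b => m (e a) (e b)) x y := by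
  simp only [MA, IsPoset, IsCCC, IsDense, IsFilter, Compat, IsSub, Ne, e.surjective.forall,
    e.surjective.exists, e.apply_eq_iff_eq, app_map, leCard_map]

end maps

theorem exists_model : ∃ (N : Type) (m : N → N → Prop) (w c k : N), IsZFC m ∧ IsOmega m w ∧
    IsOmega1 m k w ∧ MA m w c ∧ ¬ LeCard m c k ∧ ∀ T : N → Prop, (∀ e, (∀ x, ¬ m x e) → T e) →
      (∀ x y, IsSucc m y x → T x → T y) → ∀ x, m x w → T x := by
  obtain ⟨U, S, m, v, N, e, h1, h2, h3⟩ := exists_omega_model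
    fun i => Nat.casesOn i wN fun i => Nat.casesOn i cN fun _ => w1N
  have k1 := h2 (fun _ mem v => IsOmega mem (v 0)) (isOmega_omega U)
  have k2 := h2 (fun _ mem v => IsOmega1 mem (v 2) (v 0)) (isOmega1_w1N U)
  have k3 := h2 (fun _ mem v => MA mem (v 0) (v 1)) (ma_holds U)
  have k4 := h2 (fun _ mem v => ¬ LeCard mem (v 1) (v 2)) (not_ch U)
  obtain ⟨w, hw⟩ := e.surjective (v 0)
  obtain ⟨c, hc⟩ := e.surjective (v 1)
  obtain ⟨k, hk⟩ := e.surjective (v 2)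
  simp only [← hw, ← hc, ← hk] at k1 k2 k3 k4
  refine ⟨N, _, w, c, k, zfc_map m e h1, (isOmega_map m e w).1 k1, (isOmega1_map m e k w).1 k2,
    (ma_map m e w c).1 k3, fun h => k4 ((leCard_map m e c k).2 h), fun T t0 t1 y hy => ?_⟩
  have := h3 (fun s => T (e.symm s)) (fun s hs => t0 _ fun z => hs _ ∘ fun q => by simpa using q)
    (fun a b hs => t1 _ _ fun z => by
      simpa only [e.apply_symm_apply, e.eq_symm_apply] using hs (e z)) _ k1 _ hy
  simpa using this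

end Pool.Agent.P.MP_fdc1ac_lc.W
end

-- part Pool.Agent.P.MP_fdc1ac_lc.Md.T6
section

set_option autoImplicit false
set_option linter.unusedSectionVars false
set_option synthInstance.maxSize 4000

/-! The coded space satisfies the first-order statements. -/

noncomputable section

open Pool.Agent.Lib.PosetForcing (App IsFun IsFunOn LeCard IsOmega1 IsSub IsSucc IsOmega IsZFC)
open Pool.Agent.P.MP_5f3b23_lc.Zf (mm om op app_iff isPair_iff op_inj mem_suc)
open Pool.Agent.P.MP_af1204_lc.Inn Pool.Agent.P.MP_0d6be8_lc.NKW Filter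
open Pool.Agent.P.MP_93aff1_lc (MA)

namespace Pool.Agent.P.MP_fdc1ac_lc.W

section link
variable [Md] [Std]

/-- the code of the space -/
def SS : In.Data MM :=
  ⟨om, car E, car AR, rc le, rc leStar, rc leFin, enc (lm fun p : ℕ × E => r p.1 p.2)⟩

theorem qo_rc {X : Type} [MT X] (l : X → X → Prop) [DP2 l] (hr : ∀ x, l x x)
    (ht : ∀ x y z, l x y → l y z → l x z) : In.QO mm (car X) (rc l) :=
  ⟨all_car.2 fun x => app_rc.2 (hr x), fun x y z hx hy hz => by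
    obtain ⟨x, rfl⟩ := mem_car.1 hx
    obtain ⟨y, rfl⟩ := mem_car.1 hy
    obtain ⟨z, rfl⟩ := mem_car.1 hz
    simp only [app_rc]
    exact ht x y z⟩

theorem ap_iff {n A a : MM} :
    In.Ap mm SS n A a ↔ ∃ (k : ℕ) (B : E), num k = n ∧ enc B = A ∧ enc (r k B) = a := by
  simp only [In.Ap, isPair_iff, exists_eq_left]
  exact app_enc.trans ⟨fun ⟨t, e, e'⟩ => ⟨t.1, t.2, (op_inj e).1, (op_inj e).2, e'⟩,
    fun ⟨k, B, e1, e2, e3⟩ => ⟨(k, B), e1 ▸ e2 ▸ rfl, e3⟩⟩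

theorem ap_enc {k : ℕ} {B : E} {a : MM} : In.Ap mm SS (num k) (enc B) a ↔ a = enc (r k B) :=
  ap_iff.trans ⟨fun ⟨_, _, e1, e2, e3⟩ => num_inj e1 ▸ enc_inj.1 e2 ▸ e3.symm,
    fun e => ⟨k, B, rfl, rfl, e.symm⟩⟩

theorem ap_r (k : ℕ) (B : E) : In.Ap mm SS (num k) (enc B) (enc (r k B)) := ap_enc.2 rfl

theorem nb_iff {a : AR} {B : E} {A : MM} :
    In.Nb mm SS (enc a) (enc B) A ↔ ∃ C ∈ nbhd le r a B, enc C = A := by
  refine ⟨fun ⟨h1, h2, n, h3⟩ => ?_, ?_⟩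
  · obtain ⟨k, C, -, rfl, e⟩ := ap_iff.1 h3
    exact ⟨C, ⟨app_rc.1 h2, k, enc_inj.1 e⟩, rfl⟩
  · rintro ⟨C, ⟨h1, k, rfl⟩, rfl⟩
    exact ⟨enc_mem C, app_rc.2 h1, _, ap_r k C⟩

theorem nb_ex {a : AR} {B : E} :
    (∃ C, In.Nb mm SS (enc a) (enc B) C) ↔ (nbhd le r a B).Nonempty :=
  ⟨fun ⟨_, h⟩ => let ⟨C, k, _⟩ := nb_iff.1 h; ⟨C, k⟩, fun ⟨C, h⟩ => ⟨_, nb_iff.2 ⟨C, h, rfl⟩⟩⟩

theorem depth_of {B a n b : MM} (h : In.Depth mm SS B a n b) : ∃ (B' : E) (a' : AR) (k : ℕ),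
    enc B' = B ∧ enc a' = a ∧ enc (r k B') = b ∧ IsLeast {m | leFin a' (r m B')} k := by
  obtain ⟨h1, h2, h3, h4⟩ := h
  obtain ⟨a, rfl⟩ := mem_car.1 h1
  obtain ⟨k, B, rfl, rfl, rfl⟩ := ap_iff.1 h2
  exact ⟨B, a, k, rfl, rfl, rfl, (app_rc (l := leFin)).1 h3, fun m hm => not_lt.1 fun e =>
    h4 _ _ (num_mem_num.2 e) (ap_r m B) (app_rc.2 hm)⟩

theorem num_sub {n m : ℕ} : IsSub mm (num n) (num m) ↔ n ≤ m :=
  ⟨fun h => not_lt.1 fun e => lt_irrefl m (num_mem_num.1 (h _ (num_mem_num.2 e))),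
    fun h _ hx => let ⟨i, k, e⟩ := mem_num.1 hx; mem_num.2 ⟨i, k.trans_le h, e⟩⟩

theorem init_iff {a b : MM} :
    In.Init mm SS a b ↔ ∃ a' b' : AR, enc a' = a ∧ enc b' = b ∧ IsInit r a' b' := by
  refine ⟨fun ⟨B, n, m, h1, h2, h3⟩ => ?_, ?_⟩
  · obtain ⟨n, B, rfl, rfl, rfl⟩ := ap_iff.1 h2
    obtain ⟨m, C, rfl, e, rfl⟩ := ap_iff.1 h3
    exact ⟨_, _, rfl, rfl, B, n, m, num_sub.1 h1, rfl, by rw [enc_inj.1 e]⟩
  · rintro ⟨_, _, rfl, rfl, B, n, m, h, rfl, rfl⟩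
    exact ⟨_, _, _, num_sub.2 h, ap_r n B, ap_r m B⟩

theorem succ_eq {k : ℕ} {y : MM} (h : IsSucc mm y (num k)) : y = num (k + 1) :=
  zext fun z => (h z).trans mem_suc.symm

theorem isTRS : In.IsTRS mm SS where
  ne := ⟨_, enc_mem (Classical.arbitrary E)⟩
  fn := ⟨car (ℕ × E), fun p => mem_car.trans
    ⟨fun ⟨t, e⟩ => ⟨_, _, num_mem_om t.1, enc_mem t.2, isPair_iff.2 e.symm⟩,
      fun ⟨n, A, h1, h2, h3⟩ => by
        obtain ⟨n, rfl⟩ := Std.std n h1
        obtain ⟨A, rfl⟩ := mem_car.1 h2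
        exact ⟨(n, A), (isPair_iff.1 h3).symm⟩⟩, isFun_enc _⟩
  onto := all_car.2 fun a => let ⟨n, A, e⟩ := r_surj a; ⟨_, _, e ▸ ap_r n A⟩
  le := qo_rc _ le_refl' le_trans'
  lf := qo_rc _ leFin_refl leFin_trans
  a11 e A B a b he h1 h2 := by
    obtain ⟨n, A, rfl, rfl, rfl⟩ := ap_iff.1 h1
    obtain ⟨m, B, e, rfl, rfl⟩ := ap_iff.1 h2
    obtain rfl := num_inj e
    obtain rfl : m = 0 := Nat.eq_zero_of_not_pos fun k => he _ (num_mem_num.2 k)
    rw [r_zero A B]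
  a12 A B hA hB h := by
    obtain ⟨A, rfl⟩ := mem_car.1 hA
    obtain ⟨B, rfl⟩ := mem_car.1 hB
    obtain ⟨n, hn⟩ := A1_2 A B fun e => h (by rw [e])
    exact ⟨_, _, _, ap_r n A, ap_r n B, fun e => hn (enc_inj.1 e)⟩
  a13 A B n m a h1 h2 := by
    obtain ⟨n, A, rfl, rfl, rfl⟩ := ap_iff.1 h1
    obtain ⟨m, B, rfl, rfl, e⟩ := ap_iff.1 h2
    obtain ⟨rfl, h⟩ := A1_3 A B n m (enc_inj.1 e).symm
    refine ⟨rfl, fun k b hk hb => ?_⟩
    obtain ⟨k, g, rfl⟩ := mem_num.1 hk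
    exact ap_enc.2 (h k g ▸ ap_enc.1 hb)
  a21 := all_car.2 fun b => ⟨enc (sb fun a => leFin a b), finite_iff.2 (A2_1 b), fun a =>
    ⟨fun h => let ⟨t, k, e⟩ := mem_enc.1 h; e ▸ ⟨enc_mem t, app_rc.2 k⟩,
      fun h => let ⟨t, e⟩ := mem_car.1 h.1; mem_enc.2 ⟨t, (app_rc (l := leFin)).1 (e ▸ h.2), e⟩⟩⟩
  a22 A B hA hB := by
    obtain ⟨A, rfl⟩ := mem_car.1 hA
    obtain ⟨B, rfl⟩ := mem_car.1 hB
    refine app_rc.trans ((A2_2 A B).trans ⟨fun h n a k => ?_, fun h n => ?_⟩)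
    · obtain ⟨n, C, rfl, e, rfl⟩ := ap_iff.1 k
      obtain ⟨m, hm⟩ := h n
      exact ⟨_, _, ap_r m B, app_rc.2 (enc_inj.1 e ▸ hm)⟩
    · obtain ⟨m, b, h1, h2⟩ := h _ _ (ap_r n A)
      obtain ⟨m, C, rfl, e, rfl⟩ := ap_iff.1 h1
      exact ⟨m, enc_inj.1 e ▸ app_rc.1 h2⟩
  a23 a b c g hc k := by
    obtain ⟨a, b, rfl, rfl, h⟩ := init_iff.1 g
    obtain ⟨c, rfl⟩ := mem_car.1 hc
    by_cases e : a = b
    · obtain ⟨d, h1, h2⟩ := A2_3 a b c h (app_rc.1 k)
      exact ⟨_, init_iff.2 ⟨d, c, rfl, rfl, h1⟩, app_rc.2 h2, fun k => (k (by rw [e])).elim⟩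
    · obtain ⟨d, h1, h2, h3⟩ := A2_3_strict a b c h e (app_rc.1 k)
      exact ⟨_, init_iff.2 ⟨d, c, rfl, rfl, h1⟩, app_rc.2 h3, fun _ k => h2 (enc_inj.1 k)⟩
  a31 B a n b A g g' := by
    obtain ⟨B, a, n, rfl, rfl, rfl, h⟩ := depth_of g
    obtain ⟨A, k, rfl⟩ := nb_iff.1 g'
    exact nb_ex.2 (A3_1 a B n h A k)
  a32 B a n b A g hA k1 k2 := by
    obtain ⟨B, a, n, rfl, rfl, rfl, h⟩ := depth_of g
    obtain ⟨A, rfl⟩ := mem_car.1 hA
    obtain ⟨A', h1, h2, h3⟩ := A3_2 a B n h A (app_rc.1 k1) (nb_ex.1 k2)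
    exact ⟨_, nb_iff.2 ⟨A', h1, rfl⟩, nb_ex.2 h2, fun C hC =>
      let ⟨C, k, e⟩ := nb_iff.1 hC; nb_iff.2 ⟨C, h3 k, e⟩⟩
  a4 B a n b k k' O h0 h1 h2 := by
    obtain ⟨B, a, n, rfl, rfl, rfl, h⟩ := depth_of h0
    obtain ⟨_, h1⟩ := h1
    obtain ⟨k, C, rfl, -, e⟩ := ap_iff.1 h1
    obtain rfl := succ_eq h2
    obtain ⟨A, h3, h4⟩ := A4 a B n h k ⟨C, enc_inj.1 e⟩ (sb fun x => enc x ∈ O)
    refine ⟨_, nb_iff.2 ⟨A, h3, rfl⟩, h4.imp (fun g X c g1 g2 => ?_) fun g X c g1 g2 => ?_⟩ <;>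
    · obtain ⟨X, g3, rfl⟩ := nb_iff.1 g1
      obtain rfl := ap_enc.1 g2
      exact g X g3
  closed s hs h := by
    obtain ⟨s, rfl⟩ := isFun_iff (X := ℕ) (Y := AR) (car_nat.symm ▸ hs : IsFun mm s _ _)
    obtain ⟨A, hA⟩ := limit s fun N => by
      obtain ⟨A, h1, h2⟩ := h _ (num_mem_om (N + 1))
      obtain ⟨A, rfl⟩ := mem_car.1 h1
      exact ⟨A, fun n hn => (enc_inj.1 (ap_enc.1 (h2 _ _ (num_mem_num.2 (Nat.lt_succ_of_le hn))
        ((app_enc' (x := n)).2 rfl)))).symm⟩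
    refine ⟨_, enc_mem A, fun n a k => ?_⟩
    obtain ⟨n, rfl, rfl⟩ := app_enc.1 k
    exact hA n ▸ ap_r n A

theorem sep_iff (l : E → E → Prop) [DP2 l] {x y : E} :
    In.Sep mm SS (rc l) (enc x) (enc y) ↔ sepLe l x y :=
  all_car.trans (forall_congr' fun _ => imp_congr app_rc
    (ex_car.trans (exists_congr fun _ => and_congr app_rc app_rc)))

theorem isSigma : In.IsSigma mm SS where
  qo := qo_rc _ leStar_refl leStar_trans
  coarse A B hA hB h := by
    obtain ⟨A, rfl⟩ := mem_car.1 hA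
    obtain ⟨B, rfl⟩ := mem_car.1 hB
    exact app_rc.2 (leStar_eq ▸ sepLe_of_le le_refl' le_trans' (app_rc.1 h))
  closed X hX h := by
    obtain ⟨X, rfl⟩ := isFun_iff (X := ℕ) (Y := E) (car_nat.symm ▸ hX : IsFun mm X _ _)
    obtain ⟨Y, hY⟩ := sigmaClosed X fun n => app_rc.1 (h (num n) (num (n + 1)) _ _
      (fun _ => mem_suc) ((app_enc' (x := n)).2 rfl) ((app_enc' (x := n + 1)).2 rfl))
    refine ⟨_, enc_mem Y, fun n A k => ?_⟩
    obtain ⟨n, rfl, rfl⟩ := app_enc.1 k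
    exact app_rc.2 (hY n)
  sep A B hA hB := by
    obtain ⟨A, rfl⟩ := mem_car.1 hA
    obtain ⟨B, rfl⟩ := mem_car.1 hB
    refine (sep_iff le).trans (Iff.trans ?_ (sep_iff leStar).symm)
    rw [leStar_eq, sepLe_sepLe le_refl' le_trans']

theorem ls_iff (A B : MM) (hA : mm A SS.R) (hB : mm B SS.R) :
    App mm SS.ls A B ↔ In.Sep mm SS SS.le A B := by
  obtain ⟨A, rfl⟩ := mem_car.1 hA
  obtain ⟨B, rfl⟩ := mem_car.1 hB
  exact app_rc.trans (Iff.trans (by rw [leStar_eq]) (sep_iff le).symm)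

theorem cnt_AR : LeCard mm SS.AR om := by
  have h : Cnt fun _ : D => True :=
    cnt_of_surj (((cnt_nat.prod cnt_bool).prod cnt_bool.list).prod cnt_bool)
      (fun p => if p.2 = true then .inl p.1.1 else .inr p.1.2) (by
        rintro (l | s) -
        exacts [⟨((l, []), true), by simp, rfl⟩, ⟨(((0, true), s), false), by simp, rfl⟩])
  obtain ⟨f, hf⟩ := cnt_nat.list.prod h.list
  rw [← car_nat]
  exact leCard_iff.2 ⟨lm fun a : AR => f a.1, fun a b e =>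
    Subtype.ext (hf _ _ (by simp) (by simp) e)⟩

theorem pseudo_iff {F : PS E} : In.Pseudo mm SS (enc F) ↔ ∃ Y, ∀ X ∈ F, leStar Y X :=
  ex_car.trans (exists_congr fun _ => ⟨fun h _ k => app_rc.1 (h _ (enc_mem_enc.2 k)),
    fun h _ k => let ⟨X, k, e⟩ := mem_enc.1 k; e ▸ app_rc.2 (h X k)⟩)

theorem sfip_iff {F : PS E} : In.SFIP mm SS (enc F) ↔
    ∀ G : Set E, G.Finite → (∀ X ∈ G, X ∈ F) → HasPseudo leStar G := by
  refine ⟨fun h G h1 h2 => ?_, fun h => ⟨enc_sub F, fun G h1 h2 => ?_⟩⟩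
  · obtain ⟨l, rfl⟩ : ∃ l : List E, G = {x | x ∈ l} := ⟨h1.toFinset.toList, by ext; simp⟩
    exact (pseudo_iff (F := sb fun x => x ∈ l)).1 (h.2 _ (fun y hy =>
      let ⟨X, k, e⟩ := mem_enc.1 hy; mem_enc.2 ⟨X, h2 X k, e⟩) (finite_iff.2 h1))
  · obtain ⟨G, rfl⟩ := sub_iff fun y hy => enc_sub F y (h1 y hy)
    exact pseudo_iff.2 (h _ (finite_iff.1 h2) fun X k => enc_mem_enc.1 (h1 _ (enc_mem_enc.2 k)))

theorem p_low (F : MM) (h : In.SFIP mm SS F) (hc : LeCard mm F om) : In.Pseudo mm SS F := by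
  obtain ⟨F, rfl⟩ := sub_iff (X := E) h.1
  exact pseudo_iff.2 (p_lower F (cnt_iff.1 hc) (sfip_iff.1 h))

theorem p_up {k : MM} (h : IsOmega1 mm k om) :
    ∃ F, In.SFIP mm SS F ∧ ¬ In.Pseudo mm SS F ∧ LeCard mm F k := by
  have := isOd h
  obtain ⟨X, h1, h2⟩ := p_upper (cnt_lt h) (not_cnt h)
  refine ⟨enc (range X), sfip_iff.2 h1, fun e => ?_, ?_⟩
  · obtain ⟨Y, hY⟩ := pseudo_iff.1 e
    exact h2 ⟨Y, fun i => hY _ ⟨i, rfl⟩⟩
  · have := leCard_iff.2 (range_inj X)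
    rwa [car_ps, car_El] at this

theorem t_ex : ∃ T, In.Tower mm SS T := by
  obtain ⟨T, h1, h2, h3⟩ := exists_tower
  refine ⟨enc T, enc_sub T, fun X Y gX gY => ?_, fun X Y gX gY => ?_, mt pseudo_iff.1 h3⟩ <;>
    obtain ⟨X, hX, rfl⟩ := mem_enc.1 gX <;> obtain ⟨Y, hY, rfl⟩ := mem_enc.1 gY
  · exact (h1 X hX Y hY).imp app_rc.2 app_rc.2
  · exact fun a b => by rw [h2 X hX Y hY (app_rc.1 a) (app_rc.1 b)]

theorem t_low {k : MM} (h : PI (El k)) (T : MM) (hT : In.Tower mm SS T) : ¬ LeCard mm T k := by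
  obtain ⟨T, rfl⟩ := sub_iff (X := E) hT.1
  rw [← car_ps, ← car_El k, leCard_iff]
  rintro ⟨f, hf⟩
  refine hT.2.2.2 (pseudo_iff.2 ?_)
  rcases eq_empty_or_nonempty T with rfl | ⟨X0, h0⟩
  · exact ⟨Classical.arbitrary E, fun _ k => k.elim⟩
  have : Nonempty T := ⟨⟨X0, h0⟩⟩
  obtain ⟨g, hg⟩ := exists_inv hf
  obtain ⟨Y, hY⟩ := t_lower h (lm fun i => (g i).1) fun a b =>
    (hT.2.1 _ _ (enc_mem_enc.2 (g a).2) (enc_mem_enc.2 (g b).2)).imp app_rc.1 app_rc.1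
  exact ⟨Y, fun X hX => hY X ⟨f ⟨X, hX⟩, congrArg Subtype.val (hg ⟨X, hX⟩)⟩⟩

end link

open Pool.Agent.P.MP_5f3b23_lc.Zf in
theorem final : ∃ (M : Type) (mem : M → M → Prop), IsZFC mem ∧ ∃ (S : In.Data M) (w1 : M),
    IsOmega mem S.w ∧ IsOmega1 mem w1 S.w ∧ In.IsTRS mem S ∧ In.IsSigma mem S ∧
    LeCard mem S.AR S.w ∧
    (∀ A B, mem A S.R → mem B S.R → (App mem S.ls A B ↔ In.Sep mem S S.le A B)) ∧
    (∀ F, In.SFIP mem S F → LeCard mem F S.w → In.Pseudo mem S F) ∧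
    (∃ F, In.SFIP mem S F ∧ ¬ In.Pseudo mem S F ∧ LeCard mem F w1) ∧
    (∃ T, In.Tower mem S T) ∧ ∀ T, In.Tower mem S T → ¬ LeCard mem T w1 := by
  obtain ⟨N, m, w, c, k, h1, h2, h3, h4, h5, h6⟩ := exists_model
  let z : Zm N := { mem := fun a x => m x a, zfc := h1 }
  let md : Md := ⟨N⟩
  obtain rfl : w = om := isOmega_iff.1 h2
  have st : Std := ⟨h6 (fun x => ∃ n, num n = x) (fun e he => ⟨0, (eq_emp he).symm⟩)
    fun x y hs ⟨n, hn⟩ => ⟨n + 1, zfc.ext _ _ fun z => by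
      rw [num_succ, hn]; exact mem_suc.trans (hs z).symm⟩⟩
  exact ⟨N, m, h1, SS, k, h2, h3, isTRS, isSigma, cnt_AR, ls_iff, p_low, p_up h3, t_ex,
    t_low (pi_of_ma h4 h5 h3)⟩

end Pool.Agent.P.MP_fdc1ac_lc.W
end
end
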