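import Pool.Agent.P.MP_fdc1ac_lc.Ex1

namespace Pool.Agent.P.MP_fdc1ac_lc.Ex1

open Cardinal Filter Set

theorem leStar_refl (A : E) : leStar A A := ⟨labLe_refl _, by simp⟩

theorem leStar_trans (A B C : E) (h1 : leStar A B) (h2 : leStar B C) : leStar A C :=
  ⟨labLe_trans h1.1 h2.1, diff_finite_trans h1.2 h2.2⟩

theorem range_inf (A : E) : (range A.x).Infinite := infinite_range_of_injective A.mono.injective

/-- an element with column label `c` whose set is an infinite subset of `Y` -/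
theorem exists_col (c : ℕ) (Y : Set ℕ) (hY : Y.Infinite) :
    ∃ W : E, W.lab = .inl c ∧ range W.x ⊆ Y := by
  obtain ⟨φ, h1, h2⟩ := extraction_of_frequently_atTop (Nat.frequently_atTop_iff_infinite.2 hY)
  refine ⟨⟨.inl c, fun j => φ (c + j), fun _ _ h => h1 (by omega), fun k hk => ?_⟩, rfl, ?_⟩
  · obtain rfl : c = k := by simpa using hk
    exact le_trans (by omega) h1.le_apply
  · rintro _ ⟨j, rfl⟩; exact h2 _

theorem exists_col_le (l : Lab) : ∃ c, labLe (.inl c) l := by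
  rcases l with c | c
  · exact ⟨c, rfl⟩
  · exact ⟨c + 1, by simp [labLe]⟩

theorem labLe_inl {l : Lab} {c : ℕ} (h : labLe l (.inl c)) : l = .inl c := by
  rcases l with d | d <;> simp_all [labLe]

theorem exists_col_not_le {l l' : Lab} (h : ¬ labLe l l') :
    ∃ c, labLe (.inl c) l ∧ ¬ labLe (.inl c) l' := by
  rcases l with c | c
  · exact ⟨c, rfl, h⟩
  · rcases l' with d | d
    · refine ⟨c + d + 1, ?_, ?_⟩ <;> simp only [labLe] <;> omega
    · refine ⟨d, ?_, ?_⟩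
      · simp only [labLe] at h ⊢; exact fun e => h e.symm
      · simp [labLe]

theorem leStar_eq : leStar = sepLe le := by
  funext A B
  apply propext
  constructor
  · rintro ⟨h1, h2⟩ Z hZ
    obtain ⟨c, hc⟩ := exists_col_le Z.lab
    have hinf : (range Z.x ∩ range B.x).Infinite := by
      refine ((range_inf Z).sdiff h2).mono ?_
      rintro y ⟨hy, hy'⟩
      refine ⟨hy, ?_⟩
      by_contra hc
      exact hy' ⟨hZ.2 hy, hc⟩
    obtain ⟨W, hW, hW'⟩ := exists_col c _ hinf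
    refine ⟨W, ⟨hW ▸ hc, hW'.trans inter_subset_left⟩,
      ⟨hW ▸ labLe_trans hc (labLe_trans hZ.1 h1), hW'.trans inter_subset_right⟩⟩
  · intro h
    constructor
    · by_contra hn
      obtain ⟨c, hc, hc'⟩ := exists_col_not_le hn
      obtain ⟨Z, hZ, hZ'⟩ := exists_col c _ (range_inf A)
      obtain ⟨W, hW, hW'⟩ := h Z ⟨hZ ▸ hc, hZ'⟩
      have := labLe_inl (hZ ▸ hW.1)
      exact hc' (this ▸ hW'.1)
    · by_contra hn
      obtain ⟨c, hc⟩ := exists_col_le A.lab
      obtain ⟨Z, hZ, hZ'⟩ := exists_col c _ hn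
      obtain ⟨W, hW, hW'⟩ := h Z ⟨hZ ▸ hc, hZ'.trans sdiff_subset⟩
      exact (hZ' (hW.2 ⟨0, rfl⟩)).2 (hW'.2 ⟨0, rfl⟩)

/-- a chain of labels has a column below it -/
theorem exists_col_chain (T : Set E) (hT : ∀ X ∈ T, ∀ Y ∈ T, leStar X Y ∨ leStar Y X) :
    ∃ c, ∀ X ∈ T, labLe (.inl c) X.lab := by
  by_cases h : ∃ X ∈ T, ∃ c, X.lab = .inl c
  · obtain ⟨X, hX, c, hc⟩ := h
    refine ⟨c, fun Y hY => ?_⟩
    rcases hT X hX Y hY with h | h
    · exact hc ▸ h.1
    · have h1 := h.1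
      rw [hc] at h1
      rw [labLe_inl h1]; exact labLe_refl _
  · rcases T.eq_empty_or_nonempty with rfl | ⟨X, hX⟩
    · exact ⟨0, by simp⟩
    · obtain ⟨c, hc⟩ := exists_col_le X.lab
      refine ⟨c, fun Y hY => ?_⟩
      rcases hT X hX Y hY with h' | h'
      · exact labLe_trans hc h'.1
      · have h1 := h'.1
        rcases hx : X.lab with a | a
        · exact (h ⟨X, hX, a, hx⟩).elim
        · rcases hy : Y.lab with b | b
          · exact (h ⟨Y, hY, b, hy⟩).elim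
          · rw [hx, hy] at h1
            rw [hx] at hc
            simp only [labLe] at h1 hc ⊢
            omega

def toInf (A : E) : InfSet := ⟨range A.x, range_inf A⟩

theorem hasPseudo_of_chain (T : Set E) (hT : ∀ X ∈ T, ∀ Y ∈ T, leStar X Y ∨ leStar Y X)
    (h : HasPseudo aLe (toInf '' T)) : HasPseudo leStar T := by
  obtain ⟨c, hc⟩ := exists_col_chain T hT
  obtain ⟨Y, hY⟩ := h
  obtain ⟨W, hW, hW'⟩ := exists_col c _ Y.2
  refine ⟨W, fun X hX => ⟨hW ▸ hc X hX, ?_⟩⟩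
  exact (hY _ ⟨X, hX, rfl⟩).subset (sdiff_subset_sdiff_left hW')

theorem tower_lower {c : Cardinal} (hc : c ∈ tSet leStar) : towerNumber ≤ c := by
  obtain ⟨T, h1, -, h3, rfl⟩ := hc
  obtain ⟨t, ht, ht'⟩ := exists_tower_of_chain aLe_refl aLe_trans (toInf '' T) (by
    rintro _ ⟨X, hX, rfl⟩ _ ⟨Y, hY, rfl⟩
    exact (h1 X hX Y hY).imp (fun h => h.2) (fun h => h.2))
    (fun h => h3 (hasPseudo_of_chain T h1 h))
  exact (towerNumber_le ht).trans (ht'.trans Cardinal.mk_image_le)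

noncomputable def ofInf (A : InfSet) : E :=
  ⟨.inl 0, Nat.nth (· ∈ A.1), Nat.nth_strictMono A.2, fun k hk => by
    obtain rfl : 0 = k := by simpa using hk
    exact Nat.zero_le _⟩

theorem range_ofInf (A : InfSet) : range (ofInf A).x = A.1 := Nat.range_nth_of_infinite A.2

theorem ofInf_inj : Function.Injective ofInf := fun A B h => by
  apply Subtype.ext
  rw [← range_ofInf, ← range_ofInf, h]

theorem leStar_ofInf {A B : InfSet} : leStar (ofInf A) (ofInf B) ↔ aLe A B := by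
  unfold leStar aLe
  rw [range_ofInf, range_ofInf]
  exact ⟨fun h => h.2, fun h => ⟨rfl, h⟩⟩

theorem tower_mem : towerNumber ∈ tSet leStar := by
  obtain ⟨T, h1, h2, h3, h4⟩ := towerNumber_mem
  refine ⟨ofInf '' T, ?_, ?_, ?_, ?_⟩
  · rintro _ ⟨X, hX, rfl⟩ _ ⟨Y, hY, rfl⟩
    simpa only [leStar_ofInf] using h1 X hX Y hY
  · rintro _ ⟨X, hX, rfl⟩ _ ⟨Y, hY, rfl⟩ a b
    rw [h2 X hX Y hY (leStar_ofInf.1 a) (leStar_ofInf.1 b)]
  · rintro ⟨Y, hY⟩
    refine h3 ⟨toInf Y, fun X hX => ?_⟩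
    have := (hY _ ⟨X, hX, rfl⟩).2
    rwa [range_ofInf] at this
  · rw [Cardinal.mk_image_eq ofInf_inj, h4]

theorem sigmaClosed (X : ℕ → E) (h : ∀ n, leStar (X (n + 1)) (X n)) :
    ∃ Y, ∀ n, leStar Y (X n) := by
  have hle : ∀ n, ∀ i ≤ n, leStar (X n) (X i) := by
    intro n i hi
    induction hi with
    | refl => exact leStar_refl _
    | step _ ih => exact leStar_trans _ _ _ (h _) ih
  have hch : ∀ A ∈ range X, ∀ B ∈ range X, leStar A B ∨ leStar B A := by
    rintro _ ⟨i, rfl⟩ _ ⟨j, rfl⟩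
    exact (le_total j i).imp (hle _ _) (hle _ _)
  obtain ⟨φ, hφ, hφ'⟩ := exists_pseudo_seq (fun i => range (X i).x) (fun i => range (X i).x)
    (fun n => range_inf _) (fun n i hi => (hle n i hi).2)
  obtain ⟨Y, hY⟩ := hasPseudo_of_chain (range X) hch
    ⟨⟨range φ, infinite_range_of_injective hφ.injective⟩, by
      rintro _ ⟨_, ⟨i, rfl⟩, rfl⟩
      exact hφ' i⟩
  exact ⟨Y, fun n => hY _ ⟨n, rfl⟩⟩

theorem top_inj : Function.Injective top := fun a b h => by
  simpa [top] using congrArg E.lab h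

theorem p_isLeast : IsLeast (pSet leStar) ℵ₀ := by
  constructor
  · refine ⟨range top, ?_, ?_, ?_⟩
    · intro G hG hfin
      have hb : (top ⁻¹' G).Finite := hfin.preimage top_inj.injOn
      obtain ⟨c, hc⟩ := hb.infinite_compl.nonempty
      obtain ⟨W, hW, -⟩ := exists_col c _ infinite_univ
      refine ⟨W, fun X hX => ?_⟩
      obtain ⟨a, rfl⟩ := hG hX
      refine ⟨?_, by simp [top]⟩
      rw [hW]
      rintro rfl
      exact hc hX
    · rintro ⟨Y, hY⟩
      obtain ⟨c, hc⟩ := exists_col_le Y.lab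
      exact labLe_trans hc (hY _ ⟨c, rfl⟩).1 rfl
    · rw [Cardinal.mk_range_eq _ top_inj, Cardinal.mk_nat]
  · rintro _ ⟨F, h1, h2, rfl⟩
    by_contra hlt
    exact h2 (h1 F subset_rfl (Cardinal.lt_aleph0_iff_set_finite.1 (not_le.1 hlt)))

theorem main : ∃ (R AR : Type) (le leStar : R → R → Prop) (leFin : AR → AR → Prop)
    (r : ℕ → R → AR), IsTopRamseySpace le leFin r ∧ IsSigmaClosedCoarsening le leStar ∧
      Countable AR ∧ leStar = sepLe le ∧
      ∃ t : Cardinal, IsLeast (pSet leStar) ℵ₀ ∧ IsLeast (tSet leStar) t ∧ ℵ₀ < t :=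
  ⟨E, AR, le, leStar, leFin, r, isTRS,
    isSigmaClosedCoarsening_of le_refl' le_trans' leStar_eq sigmaClosed, inferInstance, leStar_eq,
    towerNumber, p_isLeast, ⟨tower_mem, fun _ => tower_lower⟩, aleph0_lt_towerNumber⟩

end Pool.Agent.P.MP_fdc1ac_lc.Ex1
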